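import Pool.Agent.Stf.Rng

/-!
# Lattices with a connection are stably free after inversion of `s` (block D of P11)
-/

set_option autoImplicit false

namespace Pool.Agent.Stf

open Pool.Fml (Ser SymRing formal IsFormal)

open MvPowerSeries

variable {d : ℕ}

/-- the derivation `s ∂/∂x_i` -/
noncomputable def sd (i : Fin d) (f : (formal d).alg) : (formal d).alg :=
  (formal d).var none * (formal d).pd (some i) f

/-- division by a power of `s` -/
lemma d1_div (k : ℕ) (f : (formal d).alg) (h : ∀ m : Ex d, m none < k → coeff m (f : Ser d) = 0) :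
    ∃ g : (formal d).alg, f = (formal d).var none ^ k * g ∧
      ∀ m : Ex d, coeff m (g : Ser d) = coeff (m + Finsupp.single none k) (f : Ser d) := by
  obtain ⟨g, hg⟩ := (X_pow_dvd_iff (s := (none : Option (Fin d)))).2 h
  have hc : ∀ m : Ex d, coeff m g = coeff (m + Finsupp.single none k) (f : Ser d) := fun m => by
    rw [hg, X_pow_eq, add_comm, coeff_add_monomial_mul, one_mul]
  have hf : IsFormal g := by
    obtain ⟨R, hR, H⟩ := f.2
    refine ⟨R, hR, fun j => ?_⟩
    obtain ⟨C, hC⟩ := H (j + k)
    refine ⟨C * R ^ k, fun m hm => ?_⟩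
    rw [hc]
    refine (hC _ (by simp [hm])).trans (le_of_eq ?_)
    rw [map_add, Finsupp.degree_single, pow_add]
    ring
  refine ⟨⟨g, hf⟩, Subtype.ext ?_, hc⟩
  simpa [SymRing.var] using hg

lemma d1_coeff_sd (i : Fin d) (f : (formal d).alg) (m : Ex d) :
    coeff (m + Finsupp.single none 1) (sd i f : Ser d) =
      coeff (m + Finsupp.single (some i) 1) (f : Ser d) * ((m (some i) : ℂ) + 1) := by
  have h : (sd i f : Ser d) = monomial (Finsupp.single none 1) 1 * pderiv ℂ (some i) (f : Ser d) :=
    rfl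
  rw [h, add_comm, coeff_add_monomial_mul, one_mul, coeff_pderiv]

lemma d1_coeff_sd_zero (i : Fin d) (f : (formal d).alg) (m : Ex d) (hm : m none = 0) :
    coeff m (sd i f : Ser d) = 0 := by
  have h : (X (none : Option (Fin d)) : Ser d) ^ 1 ∣ (sd i f : Ser d) := by
    rw [pow_one]
    exact ⟨pderiv ℂ (some i) (f : Ser d), rfl⟩
  exact X_pow_dvd_iff.1 h m (by omega)

lemma d1_step (I : Ideal (formal d).alg) (hI : ∀ i, ∀ f ∈ I, sd i f ∈ I) (n : ℕ) :
    ∀ (k : ℕ) (f : (formal d).alg), f ∈ I → (∀ m : Ex d, m none < k → coeff m (f : Ser d) = 0) →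
      ∀ m : Ex d, m none = k → m.degree = k + n → coeff m (f : Ser d) ≠ 0 →
      ∃ N : ℕ, (formal d).var none ^ N ∈ I := by
  induction n with
  | zero =>
    intro k f hf h0 m hm hd hc
    obtain ⟨g, hg, hgc⟩ := d1_div k f h0
    have hmk : m = Finsupp.single none k := by
      have h1 : ∀ i, i ≠ none → m i = 0 := by
        intro i hi
        by_contra hne
        have h2 : m none + m i ≤ m.degree := by
          rw [Finsupp.degree_eq_sum]
          calc m none + m i = ∑ j ∈ ({none, i} : Finset (Option (Fin d))), m j := by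
                rw [Finset.sum_pair hi.symm]
            _ ≤ ∑ j, m j := Finset.sum_le_sum_of_subset (Finset.subset_univ _)
        omega
      ext i
      by_cases hi : i = none
      · subst hi; simp [hm]
      · rw [h1 i hi, Finsupp.single_eq_of_ne hi]
    have hu : IsUnit g := (isUnit_iff g).2 (by rw [hgc, zero_add, ← hmk]; exact hc)
    obtain ⟨v, hv⟩ := hu.exists_right_inv
    refine ⟨k, ?_⟩
    have : (formal d).var none ^ k = f * v := by rw [hg, mul_assoc, hv, mul_one]
    rw [this]
    exact I.mul_mem_right _ hf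
  | succ n ih =>
    intro k f hf h0 m hm hd hc
    have h1 : ∃ i : Fin d, m (some i) ≠ 0 := by
      by_contra hne
      push Not at hne
      have h2 : m.degree = m none := by
        rw [Finsupp.degree_eq_sum, Fintype.sum_option]
        simp [hne]
      omega
    obtain ⟨i, hi⟩ := h1
    obtain ⟨m', rfl⟩ : ∃ m', m = m' + Finsupp.single (some i) 1 :=
      ⟨m - Finsupp.single (some i) 1, (tsub_add_cancel_of_le (by
        rw [Finsupp.single_le_iff]; omega)).symm⟩
    have hm' : m' none = k := by simpa using hm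
    rw [map_add, Finsupp.degree_single] at hd
    refine ih (k + 1) (sd i f) (hI i f hf) ?_ (m' + Finsupp.single none 1) (by simp [hm']) ?_ ?_
    · intro a ha
      rcases Nat.eq_zero_or_pos (a none) with h | h
      · exact d1_coeff_sd_zero i f a h
      · obtain ⟨a', rfl⟩ : ∃ a', a = a' + Finsupp.single none 1 :=
          ⟨a - Finsupp.single none 1, (tsub_add_cancel_of_le (by
            rw [Finsupp.single_le_iff]; omega)).symm⟩
        rw [d1_coeff_sd, h0 _ (by simpa using ha), zero_mul]
    · rw [map_add, Finsupp.degree_single]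
      omega
    · rw [d1_coeff_sd]
      exact mul_ne_zero hc (Nat.cast_add_one_ne_zero _)

/-- MODULE d1. An ideal `≠ 0` stable under the `s ∂_i` contains a power of `s`: let
`0 ≠ f = s^k g` in the ideal, `g(x, 0) ≠ 0`; some derivative of order `n` of `g` is a unit, and
`s^(k + n)` times it is in the ideal. -/
theorem exists_pow_mem (I : Ideal (formal d).alg) (hI : ∀ i, ∀ f ∈ I, sd i f ∈ I) (h0 : I ≠ ⊥) :
    ∃ N : ℕ, (formal d).var none ^ N ∈ I := by
  obtain ⟨f, hf, hne⟩ := Submodule.exists_mem_ne_zero_of_ne_bot h0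
  have h1 : ∃ k : ℕ, ∃ m : Ex d, m none = k ∧ coeff m (f : Ser d) ≠ 0 := by
    by_contra h
    push Not at h
    apply hne
    apply Subtype.ext
    ext m
    exact h _ m rfl
  classical
  obtain ⟨m, hm, hc⟩ := Nat.find_spec h1
  refine d1_step I hI (m.degree - m none) (Nat.find h1) f hf ?_ m hm ?_ hc
  · intro a ha
    by_contra hne
    exact Nat.find_min h1 ha ⟨a, rfl, hne⟩
  · have : m none ≤ m.degree := by
      rw [Finsupp.degree_eq_sum]
      exact Finset.single_le_sum (f := fun i => m i) (fun _ _ => Nat.zero_le _)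
        (Finset.mem_univ _)
    omega

section module

variable (L : Type) [AddCommGroup L] [Module (formal d).alg L] [Module.Finite (formal d).alg L]
  (hs : ∀ u : L, (formal d).var none • u = 0 → u = 0) (P : Fin d → AddMonoid.End L)
  (hP : ∀ i (f : (formal d).alg) (u : L), P i (f • u) = f • P i u + sd i f • u)

include hs hP in
/-- MODULE d2. The annihilator of the torsion submodule is an ideal `≠ 0` (the torsion submodule
is finitely generated) and stable under the `s ∂_i`. -/
theorem torsion_free (f : (formal d).alg) (u : L) (h : f • u = 0) : f = 0 ∨ u = 0 := by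
  have hT : ∀ v : L, v ∈ Submodule.torsion (formal d).alg L ↔
      ∃ g : (formal d).alg, g ≠ 0 ∧ g • v = 0 := fun v => by
    rw [Submodule.mem_torsion_iff]
    constructor
    · rintro ⟨g, hg⟩
      exact ⟨g, nonZeroDivisors.ne_zero g.2, hg⟩
    · rintro ⟨g, hg, hv⟩
      exact ⟨⟨g, mem_nonZeroDivisors_of_ne_zero hg⟩, hv⟩
  -- the `P_i` preserve torsion
  have hPT : ∀ i (v : L), v ∈ Submodule.torsion (formal d).alg L →
      P i v ∈ Submodule.torsion (formal d).alg L := fun i v hv => by
    obtain ⟨g, hg, hgv⟩ := (hT v).1 hv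
    refine (hT _).2 ⟨g * g, mul_ne_zero hg hg, ?_⟩
    have h1 := hP i g v
    rw [hgv, map_zero] at h1
    have h2 : g • (g • P i v) = - (sd i g • (g • v)) := by
      rw [smul_comm (sd i g) g v, ← smul_neg]
      congr 1
      exact eq_neg_of_add_eq_zero_left h1.symm
    rw [mul_smul, h2, hgv, smul_zero, neg_zero]
  set I : Ideal (formal d).alg := (Submodule.torsion (formal d).alg L).annihilator with hIdef
  have hI : ∀ i, ∀ g ∈ I, sd i g ∈ I := fun i g hg => by
    rw [hIdef, Submodule.mem_annihilator] at hg ⊢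
    intro v hv
    have h1 := hP i g v
    rw [hg v hv, map_zero, hg _ (hPT i v hv), zero_add] at h1
    exact h1.symm
  have hI0 : I ≠ ⊥ := by
    have hfin : Module.Finite (formal d).alg (Submodule.torsion (formal d).alg L) := inferInstance
    obtain ⟨S, hS⟩ := (Module.Finite.iff_fg.1 hfin)
    have h1 : ∀ v ∈ S, ∃ g : (formal d).alg, g ≠ 0 ∧ g • v = 0 := fun v hv => (hT v).1 (by
      rw [← hS]; exact Submodule.subset_span hv)
    choose! g hg hgv using h1
    have h2 : (∏ v ∈ S, g v) ∈ I := by
      rw [hIdef, ← hS, Submodule.mem_annihilator_span]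
      rintro ⟨v, hv⟩
      classical
      have hv' : v ∈ S := hv
      change (∏ v ∈ S, g v) • v = 0
      rw [← Finset.prod_erase_mul _ _ hv', mul_smul, hgv v hv', smul_zero]
    intro hbot
    rw [hbot, Ideal.mem_bot, Finset.prod_eq_zero_iff] at h2
    obtain ⟨v, hv, h3⟩ := h2
    exact hg v hv h3
  obtain ⟨N, hN⟩ := exists_pow_mem I hI hI0
  by_cases hf : f = 0
  · exact Or.inl hf
  · right
    have hu : u ∈ Submodule.torsion (formal d).alg L := (hT u).2 ⟨f, hf, h⟩
    rw [hIdef, Submodule.mem_annihilator] at hN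
    have h3 := hN u hu
    clear hN
    induction N with
    | zero => simpa using h3
    | succ N ih =>
      apply ih
      apply hs
      rw [← mul_smul, ← pow_succ']
      exact h3

private theorem d3_add (i : Fin d) (f g : (formal d).alg) : sd i (f + g) = sd i f + sd i g := by
  have h : (formal d).pd (some i) (f + g) = (formal d).pd (some i) f + (formal d).pd (some i) g :=
    Subtype.ext (map_add (pderiv ℂ (some i)) _ _)
  rw [sd, sd, sd, h, mul_add]

private theorem d3_mul (i : Fin d) (f g : (formal d).alg) :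
    sd i (f * g) = f * sd i g + g * sd i f := by
  have h : (formal d).pd (some i) (f * g) =
      f * (formal d).pd (some i) g + g * (formal d).pd (some i) f := by
    apply Subtype.ext
    have h1 := (pderiv ℂ (some i)).leibniz (f : Ser d) (g : Ser d)
    exact h1
  rw [sd, sd, sd, h]
  ring

private theorem d3_mk {L : Type} [AddCommGroup L] [Module (formal d).alg L] {ι : Type} [Fintype ι]
    (φ : ι → (L →ₗ[(formal d).alg] (formal d).alg)) (m : ι → L) (f : (formal d).alg)
    (h : ∀ u, ∑ j, φ j u • m j = f • u) :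
    ∃ (k : ℕ) (φ : L →ₗ[(formal d).alg] (Fin k → (formal d).alg))
      (μ : (Fin k → (formal d).alg) →ₗ[(formal d).alg] L), ∀ u, μ (φ u) = f • u := by
  classical
  refine ⟨Fintype.card ι, LinearMap.pi fun j => φ ((Fintype.equivFin ι).symm j),
    ∑ j, (LinearMap.proj j).smulRight (m ((Fintype.equivFin ι).symm j)), fun u => ?_⟩
  rw [LinearMap.sum_apply, ← h u]
  simp only [LinearMap.smulRight_apply, LinearMap.proj_apply, LinearMap.pi_apply]
  exact Equiv.sum_comp (Fintype.equivFin ι).symm fun j => φ j u • m j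

private theorem d3_un {L : Type} [AddCommGroup L] [Module (formal d).alg L] {k : ℕ}
    (φ : L →ₗ[(formal d).alg] (Fin k → (formal d).alg))
    (μ : (Fin k → (formal d).alg) →ₗ[(formal d).alg] L) (u : L) :
    μ (φ u) = ∑ j, φ u j • μ (Pi.single j 1) := by
  classical
  conv_lhs => rw [← Finset.univ_sum_single (φ u)]
  rw [map_sum]
  refine Finset.sum_congr rfl fun j _ => ?_
  rw [← map_smul, ← Pi.single_smul', smul_eq_mul, mul_one]

/-- the ideal of the `f` such that `f id_L` factors through a free module of finite rank.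
MODULE d3 -/
noncomputable def facI : Ideal (formal d).alg where
  carrier := {f | ∃ (k : ℕ) (φ : L →ₗ[(formal d).alg] (Fin k → (formal d).alg))
    (μ : (Fin k → (formal d).alg) →ₗ[(formal d).alg] L), ∀ u, μ (φ u) = f • u}
  add_mem' := by
    rintro f g ⟨k, φ, μ, h⟩ ⟨k', φ', μ', h'⟩
    refine d3_mk (ι := Fin k ⊕ Fin k')
      (Sum.elim (fun j => (LinearMap.proj j).comp φ) fun j => (LinearMap.proj j).comp φ')
      (Sum.elim (fun j => μ (Pi.single j 1)) fun j => μ' (Pi.single j 1)) _ fun u => ?_
    rw [Fintype.sum_sum_type, add_smul, ← h u, ← h' u, d3_un, d3_un]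
    rfl
  zero_mem' := ⟨0, 0, 0, fun u => by rw [zero_smul]; rfl⟩
  smul_mem' := by
    rintro c f ⟨k, φ, μ, h⟩
    refine ⟨k, φ, c • μ, fun u => ?_⟩
    rw [LinearMap.smul_apply, h u, smul_eq_mul, mul_smul]

include hP in
/-- MODULE d3. If `f u = ∑ φ_j(u) m_j` then
`s f_{x_i} u = ∑ φ_j(u) P_i m_j + ∑ (s ∂_i (φ_j(u)) - φ_j(P_i u)) m_j`, and
`u ↦ s ∂_i (φ_j(u)) - φ_j(P_i u)` is linear. -/
theorem facI_stable (i : Fin d) (f : (formal d).alg) (hf : f ∈ facI L) : sd i f ∈ facI L := by
  obtain ⟨k, φ, μ, h⟩ := hf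
  obtain ⟨ψ, hψ⟩ : ∃ ψ : Fin k → (L →ₗ[(formal d).alg] (formal d).alg),
      ∀ j u, ψ j u = sd i (φ u j) - φ (P i u) j := by
    refine ⟨fun j => ⟨⟨fun u => sd i (φ u j) - φ (P i u) j, fun u v => ?_⟩, fun g u => ?_⟩,
      fun j u => rfl⟩
    · rw [map_add, map_add, map_add, Pi.add_apply, Pi.add_apply, d3_add]
      ring
    · change sd i (φ (g • u) j) - φ (P i (g • u)) j = g • (sd i (φ u j) - φ (P i u) j)
      rw [hP, map_add, map_smul, map_smul, map_smul, Pi.add_apply, Pi.smul_apply, Pi.smul_apply,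
        Pi.smul_apply, smul_eq_mul, smul_eq_mul, smul_eq_mul, smul_eq_mul, d3_mul]
      ring
  refine d3_mk (ι := Fin k ⊕ Fin k) (Sum.elim (fun j => (LinearMap.proj j).comp φ) ψ)
    (Sum.elim (fun j => P i (μ (Pi.single j 1))) fun j => μ (Pi.single j 1)) _ fun u => ?_
  rw [Fintype.sum_sum_type]
  simp only [Sum.elim_inl, Sum.elim_inr, LinearMap.comp_apply, LinearMap.proj_apply]
  have h1 : P i (f • u) = ∑ j, (φ u j • P i (μ (Pi.single j 1)) +
      sd i (φ u j) • μ (Pi.single j 1)) := by
    rw [← h u, d3_un, map_sum]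
    exact Finset.sum_congr rfl fun j _ => hP i _ _
  have h2 : f • P i u = ∑ j, φ (P i u) j • μ (Pi.single j 1) := by
    rw [← h, d3_un]
  have h3 : sd i f • u = P i (f • u) - f • P i u := by
    rw [hP]
    abel
  rw [h3, h1, h2, Finset.sum_add_distrib, add_sub_assoc, ← Finset.sum_sub_distrib]
  congr 1
  refine Finset.sum_congr rfl fun j _ => ?_
  rw [hψ, sub_smul]

include hs hP in
/-- MODULE d4 (`torsion_free`, `exists_factor`, `facI_stable`, `exists_pow_mem`,
`reg_formal`, `Reg.ffr`, `exists_free_sub`). THE INTERFACE. -/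
theorem exists_free : ∃ (m r b : ℕ)
    (ψ : (Fin r → (formal d).alg) →ₗ[(formal d).alg] L × (Fin m → (formal d).alg)),
    Function.Injective ψ ∧ ∀ w, ∃ v, ψ v = (formal d).var none ^ b • w := by
  obtain ⟨f, k, φ, μ, hf0, hμ⟩ := exists_factor (A := (formal d).alg) L (torsion_free L hs P hP)
  have hf : f ∈ facI L := ⟨k, φ, μ, hμ⟩
  have hne : facI L ≠ ⊥ := fun h => hf0 (by rw [h] at hf; exact hf)
  obtain ⟨N, hN⟩ := exists_pow_mem (facI L) (fun i f hf => facI_stable L P hP i f hf) hne
  obtain ⟨k', φ', μ', hμ'⟩ := hN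
  have hv : ((formal d).var none : (formal d).alg) ≠ 0 := by
    intro h
    have h1 : ((X none : Ser d)) = 0 := congrArg Subtype.val h
    have h2 := congrArg (coeff (Finsupp.single none 1)) h1
    classical
    rw [coeff_X, if_pos rfl, map_zero] at h2
    exact one_ne_zero h2
  exact exists_free_sub ((formal d).var none)
    (fun a ha => (mul_eq_zero.1 ha).resolve_left hv) (d + 1) L hs
    (Reg.ffr (d + 1) (formal d).alg (reg_formal d) L) N k' φ' μ' hμ'

include hs hP in
/-- the interface in terms of a family of vectors -/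
theorem exists_frame : ∃ (m r N : ℕ)
    (f : Fin r → L × (Fin m → (formal d).alg)), LinearIndependent (formal d).alg f ∧
      ∀ u : L × (Fin m → (formal d).alg), (formal d).var none ^ N • u ∈ Submodule.span (formal d).alg (Set.range f) := by
  obtain ⟨m, r, b, ψ, hψ, h⟩ := exists_free L hs P hP
  refine ⟨m, r, b, fun j => ψ (Pi.basisFun (formal d).alg (Fin r) j), ?_, fun u => ?_⟩
  · exact (Pi.basisFun (formal d).alg (Fin r)).linearIndependent.map' ψ
      (LinearMap.ker_eq_bot.2 hψ)
  · obtain ⟨v, hv⟩ := h u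
    rw [← hv, ← (Pi.basisFun (formal d).alg (Fin r)).sum_repr v, map_sum]
    refine Submodule.sum_mem _ fun j _ => ?_
    rw [map_smul]
    exact Submodule.smul_mem _ _ (Submodule.subset_span ⟨j, rfl⟩)

end module

end Pool.Agent.Stf
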