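import Pool.Agent.Stf.Grd

/-!
# The division theorem for microdifferential symbols, and noetherianity
-/

set_option autoImplicit false

namespace Pool.Agent.Stf

open Pool.Fml (Ser SymRing formal micro IsFormal IsMicro)

open Finset.HasAntidiagonal (antidiagonal mem_antidiagonal)

open MvPowerSeries

variable {d : ℕ}

/-- the weights of the powers of `s` -/
noncomputable def mo (σ : ℝ) (l : ℕ) : ℝ := σ ^ l / l.factorial

lemma mo_add {σ : ℝ} (hσ : 0 < σ) (a l : ℕ) : mo σ (a + l) ≤ mo σ a * mo σ l := by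
  unfold mo
  rw [div_mul_div_comm, ← pow_add]
  refine div_le_div_of_nonneg_left (by positivity) (by positivity) ?_
  exact_mod_cast Nat.le_of_dvd (Nat.factorial_pos _) (Nat.factorial_mul_factorial_dvd_factorial_add a l)

private lemma m3b_lv_nonneg {lam : Fin d → ℝ} (hw : Wt lam) (m : Ex d) : 0 ≤ lv lam m :=
  Finset.sum_nonneg fun i _ => mul_nonneg (hw.pos i).le (Nat.cast_nonneg _)

/-- a small radius -/
private lemma m3b_rad {lam : Fin d → ℝ} (hw : Wt lam) {R : ℝ} (hR : 0 < R) :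
    ∃ ρ : ℝ, 0 < ρ ∧ ρ < 1 ∧ ∀ i, R * ρ ^ lam i ≤ 1 / 2 := by
  have h1 : ∀ i, ∀ᶠ ρ in nhdsWithin (0 : ℝ) (Set.Ioi 0), R * ρ ^ lam i ≤ 1 / 2 := by
    intro i
    have h2 : Filter.Tendsto (fun ρ : ℝ => R * ρ ^ lam i) (nhdsWithin (0 : ℝ) (Set.Ioi 0))
        (nhds (R * 0)) := by
      refine Filter.Tendsto.const_mul R ?_
      have h3 : Filter.Tendsto (fun ρ : ℝ => ρ ^ lam i) (nhds (0 : ℝ)) (nhds ((0 : ℝ) ^ lam i)) :=
        (Real.continuousAt_rpow_const 0 (lam i) (Or.inr (hw.pos i).le)).tendsto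
      rw [Real.zero_rpow (hw.pos i).ne'] at h3
      exact h3.mono_left nhdsWithin_le_nhds
    rw [mul_zero] at h2
    exact h2.eventually (Iic_mem_nhds (by norm_num))
  have h4 : ∀ᶠ ρ in nhdsWithin (0 : ℝ) (Set.Ioi 0), ∀ i, R * ρ ^ lam i ≤ 1 / 2 :=
    Filter.eventually_all.2 h1
  have h5 : ∀ᶠ ρ in nhdsWithin (0 : ℝ) (Set.Ioi 0), ρ < 1 :=
    nhdsWithin_le_nhds (Iio_mem_nhds one_pos)
  have h6 : ∀ᶠ ρ in nhdsWithin (0 : ℝ) (Set.Ioi 0), 0 < ρ := self_mem_nhdsWithin
  obtain ⟨ρ, h⟩ := (h4.and (h5.and h6)).exists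
  exact ⟨ρ, h.2.2, h.2.1, h.1⟩

private lemma m3b_deg (m : Ex d) : m.degree = m none + ∑ i : Fin d, m (some i) := by
  rw [Finsupp.degree_eq_sum, Fintype.sum_option]

private lemma m3b_rpow_lv {lam : Fin d → ℝ} {ρ : ℝ} (h0 : 0 < ρ) (m : Ex d) :
    ρ ^ lv lam m = ∏ i, (ρ ^ lam i) ^ m (some i) := by
  rw [lv, Real.rpow_sum_of_pos h0]
  refine Finset.prod_congr rfl fun i _ => ?_
  rw [Real.rpow_mul h0.le, Real.rpow_natCast]

/-- domination at a small radius -/
private lemma m3b_dom {lam : Fin d → ℝ} {R ρ : ℝ} (_hR : 0 < R) (h0 : 0 < ρ)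
    (h : ∀ i, R * ρ ^ lam i ≤ 1 / 2) (m : Ex d) :
    R ^ m.degree * ρ ^ lv lam m ≤ (2 * R) ^ m none * (1 / 2) ^ m.degree := by
  rw [m3b_rpow_lv h0, m3b_deg, pow_add, pow_add, ← Finset.prod_pow_eq_pow_sum,
    ← Finset.prod_pow_eq_pow_sum, mul_assoc, ← Finset.prod_mul_distrib]
  have h1 : ∏ i, (R ^ m (some i) * (ρ ^ lam i) ^ m (some i)) ≤ ∏ i : Fin d, (1 / 2 : ℝ) ^ m (some i) := by
    refine Finset.prod_le_prod (fun i _ => by positivity) fun i _ => ?_
    rw [← mul_pow]
    exact pow_le_pow_left₀ (by positivity) (h i) _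
  calc R ^ m none * ∏ i, (R ^ m (some i) * (ρ ^ lam i) ^ m (some i))
      ≤ R ^ m none * ∏ i : Fin d, (1 / 2 : ℝ) ^ m (some i) :=
        mul_le_mul_of_nonneg_left h1 (by positivity)
    _ = (2 * R) ^ m none * ((1 / 2) ^ m none * ∏ i : Fin d, (1 / 2 : ℝ) ^ m (some i)) := by
        rw [← mul_assoc, ← mul_pow]
        congr 2
        ring


/-- a common bound for finitely many micro symbols -/
private lemma m3b_common {k : ℕ} (f : Fin k → Ser d) (hf : ∀ i, IsMicro (f i)) (g : Ser d)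
    (hg : IsMicro g) : ∃ R C₀ : ℝ, 0 < R ∧ 0 ≤ C₀ ∧
      ∀ m : Ex d, ‖coeff m g‖ + ∑ i, ‖coeff m (f i)‖ ≤
        C₀ * (m none).factorial * R ^ m.degree := by
  choose C hC using hf
  obtain ⟨D, hD⟩ := hg
  set R : ℝ := 1 + |D| + ∑ i, |C i| with hR
  have hs : 0 ≤ ∑ i, |C i| := Finset.sum_nonneg fun i _ => abs_nonneg _
  have hR0 : 0 < R := by
    have := abs_nonneg D
    linarith
  have hDR : |D| ≤ R := by linarith
  have hCR : ∀ i, |C i| ≤ R := fun i => by
    have := Finset.single_le_sum (f := fun i => |C i|) (fun i _ => abs_nonneg _) (Finset.mem_univ i)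
    have := abs_nonneg D
    linarith
  have hb : ∀ (E : ℝ), |E| ≤ R → ∀ m : Ex d, E ^ (m.degree + 1) * ((m none).factorial : ℝ) ≤
      R * (m none).factorial * R ^ m.degree := by
    intro E hE m
    have h1 : E ^ (m.degree + 1) ≤ R ^ (m.degree + 1) :=
      (le_abs_self _).trans (by rw [abs_pow]; exact pow_le_pow_left₀ (abs_nonneg _) hE _)
    calc E ^ (m.degree + 1) * ((m none).factorial : ℝ) ≤ R ^ (m.degree + 1) * (m none).factorial :=
          mul_le_mul_of_nonneg_right h1 (by positivity)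
      _ = _ := by ring
  refine ⟨R, (1 + k) * R, hR0, by positivity, fun m => ?_⟩
  calc ‖coeff m g‖ + ∑ i, ‖coeff m (f i)‖
      ≤ R * (m none).factorial * R ^ m.degree +
          ∑ _i : Fin k, R * (m none).factorial * R ^ m.degree :=
        add_le_add ((hD m).trans (hb D hDR m))
          (Finset.sum_le_sum fun i _ => (hC i m).trans (hb (C i) (hCR i) m))
    _ = _ := by
        rw [Finset.sum_const, Finset.card_univ, Fintype.card_fin, nsmul_eq_mul]
        ring

/-- the choice of `σ` -/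
private lemma m3b_sigma {k : ℕ} {R C₀ E ε : ℝ} (hR : 0 < R) (hC0 : 0 ≤ C₀) (hE : 0 ≤ E)
    (hε : 0 < ε) (a : Fin k → ℕ) :
    ∃ σ : ℝ, 0 < σ ∧ ∀ l : ℕ, (1 + E) * (C₀ * (l + 1).factorial * (2 * R) ^ (l + 1) +
      ∑ i, C₀ * (a i + (l + 1)).factorial * (2 * R) ^ (a i + (l + 1))) * mo σ (l + 1) ≤ ε := by
  set A : ℝ := C₀ * (1 + ∑ i, ((a i).factorial : ℝ) * (4 * R) ^ a i) with hA
  have hA0 : 0 ≤ A := by positivity
  set B : ℝ := (1 + E) * A * (4 * R) with hB
  have hB0 : 0 ≤ B := by positivity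
  have hfac : ∀ p q : ℕ, ((p + q).factorial : ℝ) ≤ 2 ^ (p + q) * (p.factorial * q.factorial) := by
    intro p q
    have h1 := Nat.add_choose_mul_factorial_mul_factorial p q
    have h2 : (p + q).choose q ≤ 2 ^ (p + q) := Nat.choose_le_two_pow _ _
    have h3 : (p + q).factorial ≤ 2 ^ (p + q) * (p.factorial * q.factorial) := by
      rw [← h1, mul_assoc]
      exact Nat.mul_le_mul_right _ h2
    exact_mod_cast h3
  refine ⟨min (1 / (4 * R)) (ε / (1 + B)), lt_min (by positivity) (by positivity), fun l => ?_⟩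
  set σ : ℝ := min (1 / (4 * R)) (ε / (1 + B)) with hσ
  have hσ0 : 0 < σ := lt_min (by positivity) (by positivity)
  have h1 : 4 * R * σ ≤ 1 := by
    have h2 : σ ≤ 1 / (4 * R) := min_le_left _ _
    rw [le_div_iff₀ (by positivity)] at h2
    linarith
  have h2 : B * σ ≤ ε := by
    have h3 : σ ≤ ε / (1 + B) := min_le_right _ _
    rw [le_div_iff₀ (by positivity)] at h3
    have : 0 ≤ σ := hσ0.le
    nlinarith
  have hl : (0 : ℝ) < (l + 1).factorial := by positivity
  have hV : C₀ * (l + 1).factorial * (2 * R) ^ (l + 1) +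
      ∑ i, C₀ * (a i + (l + 1)).factorial * (2 * R) ^ (a i + (l + 1)) ≤
      A * ((l + 1).factorial * (4 * R) ^ (l + 1)) := by
    have e1 : (2 * R) ^ (l + 1) ≤ (4 * R) ^ (l + 1) :=
      pow_le_pow_left₀ (by positivity) (by linarith) _
    have e2 : C₀ * (l + 1).factorial * (2 * R) ^ (l + 1) ≤
        C₀ * ((l + 1).factorial * (4 * R) ^ (l + 1)) := by
      rw [mul_assoc]
      exact mul_le_mul_of_nonneg_left (mul_le_mul_of_nonneg_left e1 hl.le) hC0
    have e3 : ∀ i, C₀ * (a i + (l + 1)).factorial * (2 * R) ^ (a i + (l + 1)) ≤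
        C₀ * (((a i).factorial * (4 * R) ^ a i) * ((l + 1).factorial * (4 * R) ^ (l + 1))) := by
      intro i
      rw [mul_assoc]
      refine mul_le_mul_of_nonneg_left ?_ hC0
      calc ((a i + (l + 1)).factorial : ℝ) * (2 * R) ^ (a i + (l + 1))
          ≤ 2 ^ (a i + (l + 1)) * ((a i).factorial * (l + 1).factorial) *
              (2 * R) ^ (a i + (l + 1)) :=
            mul_le_mul_of_nonneg_right (hfac _ _) (by positivity)
        _ = ((a i).factorial * (l + 1).factorial) * (4 * R) ^ (a i + (l + 1)) := by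
            rw [show (4 : ℝ) * R = 2 * (2 * R) by ring, mul_pow 2 (2 * R)]
            ring
        _ = _ := by rw [pow_add]; ring
    calc _ ≤ C₀ * ((l + 1).factorial * (4 * R) ^ (l + 1)) + ∑ i,
          C₀ * (((a i).factorial * (4 * R) ^ a i) * ((l + 1).factorial * (4 * R) ^ (l + 1))) :=
          add_le_add e2 (Finset.sum_le_sum fun i _ => e3 i)
      _ = _ := by
          rw [hA, mul_add, mul_one, add_mul, Finset.mul_sum, Finset.sum_mul]
          congr 1
          exact Finset.sum_congr rfl fun i _ => by ring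
  have hm : (0 : ℝ) < mo σ (l + 1) := by unfold mo; positivity
  calc _ ≤ (1 + E) * (A * ((l + 1).factorial * (4 * R) ^ (l + 1))) * mo σ (l + 1) :=
        mul_le_mul_of_nonneg_right (mul_le_mul_of_nonneg_left hV (by linarith)) hm.le
    _ = (1 + E) * A * (4 * R * σ) ^ (l + 1) := by
        unfold mo
        rw [mul_pow (4 * R) σ]
        field_simp
    _ ≤ (1 + E) * A * (4 * R * σ) := by
        refine mul_le_mul_of_nonneg_left ?_ (by positivity)
        exact pow_le_of_le_one (by positivity) h1 (by omega)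
    _ = B * σ := by rw [hB]; ring
    _ ≤ ε := h2

theorem exists_weights_micro {lam : Fin d → ℝ} (hw : Wt lam) {k : ℕ} (f : Fin k → Ser d)
    (hf : ∀ i, IsMicro (f i)) (e : Fin k → Ex d) (he : ∀ i, Lead lam (f i) (e i)) (g : Ser d)
    (hg : IsMicro g) :
    ∃ ρ σ : ℝ, 0 < ρ ∧ ρ < 1 ∧ 0 < σ ∧
      (Summable fun m => ‖coeff m g‖ * wt lam ρ (mo σ) m) ∧
      ∀ i (m : Ex d), (Summable fun m' => ‖coeff m' (f i)‖ * wt lam ρ (mo σ) (m + m')) ∧
        ∑' m', (if m' = e i then 0 else ‖coeff m' (f i)‖ * wt lam ρ (mo σ) (m + m')) ≤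
          1 / 2 * wt lam ρ (mo σ) (m + e i) := by
  classical
  -- a common bound
  set F : Ex d → ℝ := fun m => ‖coeff m g‖ + ∑ i, ‖coeff m (f i)‖ with hF
  have hgF : ∀ m, ‖coeff m g‖ ≤ F m := fun m =>
    le_add_of_nonneg_right (Finset.sum_nonneg fun i _ => norm_nonneg _)
  have hfF : ∀ i m, ‖coeff m (f i)‖ ≤ F m := fun i m =>
    (Finset.single_le_sum (f := fun i => ‖coeff m (f i)‖) (fun _ _ => norm_nonneg _)
      (Finset.mem_univ i)).trans (le_add_of_nonneg_left (norm_nonneg _))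
  obtain ⟨R, C₀, hR, hC0, hC⟩ : ∃ R C₀ : ℝ, 0 < R ∧ 0 ≤ C₀ ∧
      ∀ m, F m ≤ C₀ * (m none).factorial * R ^ m.degree := m3b_common f hf g hg
  obtain ⟨ρ₀, hρ0, hρ1, hρR⟩ := m3b_rad hw hR
  set U : ℕ → ℝ := fun j => C₀ * j.factorial * (2 * R) ^ j with hU
  have hU0 : ∀ j, 0 ≤ U j := fun j => by positivity
  have hFU : ∀ m, F m * ρ₀ ^ lv lam m ≤ U (m none) * (1 / 2) ^ m.degree := by
    intro m
    have h1 := m3b_dom hR hρ0 hρR m
    have hp : 0 < ρ₀ ^ lv lam m := Real.rpow_pos_of_pos hρ0 _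
    calc F m * ρ₀ ^ lv lam m ≤ (C₀ * (m none).factorial * R ^ m.degree) * ρ₀ ^ lv lam m :=
          mul_le_mul_of_nonneg_right (hC m) hp.le
      _ = C₀ * (m none).factorial * (R ^ m.degree * ρ₀ ^ lv lam m) := by ring
      _ ≤ C₀ * (m none).factorial * ((2 * R) ^ m none * (1 / 2) ^ m.degree) :=
          mul_le_mul_of_nonneg_left h1 (by positivity)
      _ = _ := by rw [hU]; ring
  have hdeg : Summable fun m : Ex d => (1 / 2 : ℝ) ^ m.degree :=
    Pool.Fml.summable_deg (1 / 2) (by norm_num) (by norm_num)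
  -- the small radius
  set A : Fin k → ℝ → Ex d → ℝ := fun i ρ m =>
    if m none = e i none ∧ m ≠ e i then ‖coeff m (f i)‖ * ρ ^ (lv lam m - lv lam (e i)) else 0
    with hA
  have hA0 : ∀ i ρ m, 0 < ρ → 0 ≤ A i ρ m := by
    intro i ρ m h
    simp only [hA]
    split_ifs
    · exact mul_nonneg (norm_nonneg _) (Real.rpow_pos_of_pos h _).le
    · exact le_rfl
  have hlt : ∀ i m, m none = e i none → m ≠ e i → coeff m (f i) ≠ 0 →
      lv lam (e i) < lv lam m := by
    intro i m h1 h2 h3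
    rcases (he i).min m h3 h2 with h | h
    · omega
    · exact h.2
  have hAb : ∀ i ρ m, 0 < ρ → ρ ≤ ρ₀ →
      A i ρ m ≤ ρ₀ ^ (-lv lam (e i)) * U (e i none) * (1 / 2) ^ m.degree := by
    intro i ρ m h1 h2
    have hp : 0 < ρ₀ ^ (-lv lam (e i)) := Real.rpow_pos_of_pos hρ0 _
    have hnn : 0 ≤ ρ₀ ^ (-lv lam (e i)) * U (e i none) * (1 / 2) ^ m.degree :=
      mul_nonneg (mul_nonneg hp.le (hU0 _)) (by positivity)
    simp only [hA]
    split_ifs with h
    · by_cases hz : coeff m (f i) = 0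
      · rw [hz, norm_zero, zero_mul]
        exact hnn
      · have h3 := hlt i m h.1 h.2 hz
        have h4 : ρ ^ (lv lam m - lv lam (e i)) ≤ ρ₀ ^ (lv lam m - lv lam (e i)) :=
          Real.rpow_le_rpow h1.le h2 (by linarith)
        calc ‖coeff m (f i)‖ * ρ ^ (lv lam m - lv lam (e i))
            ≤ F m * ρ₀ ^ (lv lam m - lv lam (e i)) :=
              mul_le_mul (hfF i m) h4 (Real.rpow_pos_of_pos h1 _).le
                ((norm_nonneg _).trans (hfF i m))
          _ = ρ₀ ^ (-lv lam (e i)) * (F m * ρ₀ ^ lv lam m) := by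
              rw [sub_eq_add_neg, Real.rpow_add hρ0]
              ring
          _ ≤ ρ₀ ^ (-lv lam (e i)) * (U (m none) * (1 / 2) ^ m.degree) :=
              mul_le_mul_of_nonneg_left (hFU m) hp.le
          _ = _ := by rw [h.1]; ring
    · exact hnn
  have hAs : ∀ i ρ, 0 < ρ → ρ ≤ ρ₀ → Summable (A i ρ) := fun i ρ h1 h2 =>
    Summable.of_nonneg_of_le (fun m => hA0 i ρ m h1) (fun m => hAb i ρ m h1 h2)
      (hdeg.mul_left _)
  have hAt : ∀ i, ∀ᶠ ρ in nhdsWithin (0 : ℝ) (Set.Ioi 0), ∑' m, A i ρ m ≤ 1 / 4 := by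
    intro i
    have h1 : Filter.Tendsto (fun ρ => ∑' m, A i ρ m) (nhdsWithin (0 : ℝ) (Set.Ioi 0))
        (nhds (∑' _ : Ex d, (0 : ℝ))) := by
      refine tendsto_tsum_of_dominated_convergence
        (bound := fun m => ρ₀ ^ (-lv lam (e i)) * U (e i none) * (1 / 2) ^ m.degree)
        (hdeg.mul_left _) (fun m => ?_) ?_
      · simp only [hA]
        split_ifs with h
        · by_cases hz : coeff m (f i) = 0
          · simp only [hz, norm_zero, zero_mul]
            exact tendsto_const_nhds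
          · have h3 := hlt i m h.1 h.2 hz
            have h4 : Filter.Tendsto (fun ρ : ℝ => ρ ^ (lv lam m - lv lam (e i))) (nhds (0 : ℝ))
                (nhds ((0 : ℝ) ^ (lv lam m - lv lam (e i)))) :=
              (Real.continuousAt_rpow_const 0 _ (Or.inr (by linarith))).tendsto
            rw [Real.zero_rpow (by linarith)] at h4
            have h5 := (h4.mono_left (nhdsWithin_le_nhds (s := Set.Ioi 0))).const_mul
              ‖coeff m (f i)‖
            rw [mul_zero] at h5
            exact h5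
        · exact tendsto_const_nhds
      · have h5 : ∀ᶠ ρ in nhdsWithin (0 : ℝ) (Set.Ioi 0), ρ < ρ₀ :=
          nhdsWithin_le_nhds (Iio_mem_nhds hρ0)
        have h6 : ∀ᶠ ρ in nhdsWithin (0 : ℝ) (Set.Ioi 0), 0 < ρ := self_mem_nhdsWithin
        filter_upwards [h5, h6] with ρ h7 h8 m
        rw [Real.norm_of_nonneg (hA0 i ρ m h8)]
        exact hAb i ρ m h8 h7.le
    rw [tsum_zero] at h1
    exact h1.eventually (Iic_mem_nhds (by norm_num))
  obtain ⟨ρ, hρ, hρle, hρA⟩ : ∃ ρ : ℝ, 0 < ρ ∧ ρ ≤ ρ₀ ∧ ∀ i, ∑' m, A i ρ m ≤ 1 / 4 := by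
    have h5 : ∀ᶠ ρ in nhdsWithin (0 : ℝ) (Set.Ioi 0), ρ < ρ₀ :=
      nhdsWithin_le_nhds (Iio_mem_nhds hρ0)
    have h6 : ∀ᶠ ρ in nhdsWithin (0 : ℝ) (Set.Ioi 0), 0 < ρ := self_mem_nhdsWithin
    obtain ⟨ρ, h⟩ := ((Filter.eventually_all.2 hAt).and (h5.and h6)).exists
    exact ⟨ρ, h.2.2, h.2.1.le, h.1⟩
  have hFρ : ∀ m, F m * ρ ^ lv lam m ≤ U (m none) * (1 / 2) ^ m.degree := fun m =>
    (mul_le_mul_of_nonneg_left (Real.rpow_le_rpow hρ.le hρle (m3b_lv_nonneg hw m))
      ((norm_nonneg _).trans (hgF m))).trans (hFU m)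
  -- the weights of the powers of `s`
  set W : ℝ := ∑' m : Ex d, (1 / 2 : ℝ) ^ m.degree with hW
  have hW0 : 0 ≤ W := tsum_nonneg fun m => by positivity
  set ε : ℝ := 1 / (4 * (1 + W)) with hε
  have hε0 : 0 < ε := by positivity
  have hεW : ε * W ≤ 1 / 4 := by
    rw [hε, div_mul_eq_mul_div, one_mul, div_le_iff₀ (by positivity)]
    linarith
  set E : ℝ := ∑ i, ρ ^ (-lv lam (e i)) with hE
  have hE0 : 0 ≤ E := Finset.sum_nonneg fun i _ => (Real.rpow_pos_of_pos hρ _).le
  have hEi : ∀ i, ρ ^ (-lv lam (e i)) ≤ E := fun i =>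
    Finset.single_le_sum (f := fun i => ρ ^ (-lv lam (e i)))
      (fun _ _ => (Real.rpow_pos_of_pos hρ _).le) (Finset.mem_univ i)
  set V : ℕ → ℝ := fun l => U l + ∑ i, U (e i none + l) with hV
  have hV0 : ∀ l, 0 ≤ V l := fun l =>
    add_nonneg (hU0 _) (Finset.sum_nonneg fun i _ => hU0 _)
  have hVU : ∀ l, U l ≤ V l := fun l =>
    le_add_of_nonneg_right (Finset.sum_nonneg fun i _ => hU0 _)
  have hVi : ∀ i l, U (e i none + l) ≤ V l := fun i l =>
    (Finset.single_le_sum (f := fun i => U (e i none + l)) (fun _ _ => hU0 _)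
      (Finset.mem_univ i)).trans (le_add_of_nonneg_left (hU0 _))
  obtain ⟨σ, hσ, hσV⟩ : ∃ σ : ℝ, 0 < σ ∧ ∀ l, (1 + E) * V (l + 1) * mo σ (l + 1) ≤ ε :=
    m3b_sigma hR hC0 hE0 hε0 (fun i => e i none)
  have ho0 : mo σ 0 = 1 := by simp [mo]
  have ho1 : ∀ l, 0 < mo σ l := fun l => by unfold mo; positivity
  have ho3 : ∀ a l, mo σ (a + l) ≤ mo σ a * mo σ l := mo_add hσ
  have hoV : ∀ l, (1 + E) * V (l + 1) * mo σ (l + 1) ≤ ε := hσV
  have hwt : ∀ m, 0 < wt lam ρ (mo σ) m := fun m => mul_pos (Real.rpow_pos_of_pos hρ _) (ho1 _)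
  refine ⟨ρ, σ, hρ, hρle.trans_lt hρ1, hσ, ?_, fun i m => ?_⟩
  · -- the summability for `g`
    refine Summable.of_nonneg_of_le (fun m => mul_nonneg (norm_nonneg _) (hwt m).le)
      (fun m => ?_) (hdeg.mul_left (U 0 + ε))
    have h1 : ‖coeff m g‖ * ρ ^ lv lam m ≤ U (m none) * (1 / 2) ^ m.degree :=
      (mul_le_mul_of_nonneg_right (hgF m) (Real.rpow_pos_of_pos hρ _).le).trans (hFρ m)
    have h2 : U (m none) * mo σ (m none) ≤ U 0 + ε := by
      rcases Nat.eq_zero_or_pos (m none) with h | h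
      · rw [h, ho0]
        linarith
      · obtain ⟨l, hl⟩ : ∃ l, m none = l + 1 := ⟨m none - 1, by omega⟩
        rw [hl]
        have h3 := hoV l
        have h4 : U (l + 1) * mo σ (l + 1) ≤ (1 + E) * V (l + 1) * mo σ (l + 1) := by
          refine mul_le_mul_of_nonneg_right ?_ (ho1 _).le
          have := mul_nonneg hE0 (hV0 (l + 1))
          have := hVU (l + 1)
          linarith
        have := hU0 0
        linarith
    calc ‖coeff m g‖ * wt lam ρ (mo σ) m = ‖coeff m g‖ * ρ ^ lv lam m * mo σ (m none) := by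
          rw [wt]; ring
      _ ≤ U (m none) * (1 / 2) ^ m.degree * mo σ (m none) :=
          mul_le_mul_of_nonneg_right h1 (ho1 _).le
      _ = U (m none) * mo σ (m none) * (1 / 2) ^ m.degree := by ring
      _ ≤ (U 0 + ε) * (1 / 2) ^ m.degree :=
          mul_le_mul_of_nonneg_right h2 (by positivity)
  · -- the key estimate
    have key : ∀ m', m' ≠ e i → ‖coeff m' (f i)‖ * wt lam ρ (mo σ) (m + m') ≤
        wt lam ρ (mo σ) (m + e i) * (A i ρ m' + ε * (1 / 2) ^ m'.degree) := by
      intro m' hne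
      have hpos2 : 0 ≤ ε * (1 / 2 : ℝ) ^ m'.degree := by positivity
      have hrhs : 0 ≤ wt lam ρ (mo σ) (m + e i) * (A i ρ m' + ε * (1 / 2) ^ m'.degree) :=
        mul_nonneg (hwt _).le (add_nonneg (hA0 i ρ m' hρ) hpos2)
      by_cases hz : coeff m' (f i) = 0
      · rw [hz, norm_zero, zero_mul]
        exact hrhs
      have hsplit : ρ ^ lv lam (m + m') =
          ρ ^ lv lam (m + e i) * ρ ^ (lv lam m' - lv lam (e i)) := by
        rw [← Real.rpow_add hρ, lv_add, lv_add]
        congr 1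
        ring
      rcases (he i).min m' hz hne with h | ⟨h, h'⟩
      · obtain ⟨l, hl⟩ : ∃ l, m' none = e i none + (l + 1) := ⟨m' none - e i none - 1, by omega⟩
        have h1 : mo σ ((m + m') none) ≤ mo σ ((m + e i) none) * mo σ (l + 1) := by
          have := ho3 (m none + e i none) (l + 1)
          rw [Finsupp.add_apply, Finsupp.add_apply, hl, ← add_assoc]
          exact this
        have h2 : ‖coeff m' (f i)‖ * ρ ^ (lv lam m' - lv lam (e i)) * mo σ (l + 1) ≤
            ε * (1 / 2) ^ m'.degree := by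
          have h3 : ‖coeff m' (f i)‖ * ρ ^ (lv lam m' - lv lam (e i)) ≤
              E * (V (l + 1) * (1 / 2) ^ m'.degree) := by
            calc ‖coeff m' (f i)‖ * ρ ^ (lv lam m' - lv lam (e i))
                = ρ ^ (-lv lam (e i)) * (‖coeff m' (f i)‖ * ρ ^ lv lam m') := by
                  rw [sub_eq_add_neg, Real.rpow_add hρ]
                  ring
              _ ≤ E * (V (l + 1) * (1 / 2) ^ m'.degree) := by
                  refine mul_le_mul (hEi i) ?_ (mul_nonneg (norm_nonneg _)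
                    (Real.rpow_pos_of_pos hρ _).le) hE0
                  refine (mul_le_mul_of_nonneg_right (hfF i m')
                    (Real.rpow_pos_of_pos hρ _).le).trans ((hFρ m').trans ?_)
                  refine mul_le_mul_of_nonneg_right ?_ (by positivity)
                  rw [hl]
                  exact hVi i (l + 1)
          have h4 : E * V (l + 1) * mo σ (l + 1) ≤ ε := by
            refine le_trans ?_ (hoV l)
            refine mul_le_mul_of_nonneg_right ?_ (ho1 _).le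
            have := hV0 (l + 1)
            linarith
          calc ‖coeff m' (f i)‖ * ρ ^ (lv lam m' - lv lam (e i)) * mo σ (l + 1)
              ≤ E * (V (l + 1) * (1 / 2) ^ m'.degree) * mo σ (l + 1) :=
                mul_le_mul_of_nonneg_right h3 (ho1 _).le
            _ = E * V (l + 1) * mo σ (l + 1) * (1 / 2) ^ m'.degree := by ring
            _ ≤ ε * (1 / 2) ^ m'.degree := mul_le_mul_of_nonneg_right h4 (by positivity)
        have hn1 : 0 ≤ ‖coeff m' (f i)‖ := norm_nonneg _
        have hn2 : 0 < ρ ^ lv lam (m + e i) := Real.rpow_pos_of_pos hρ _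
        have hn3 : 0 < ρ ^ (lv lam m' - lv lam (e i)) := Real.rpow_pos_of_pos hρ _
        have hn4 : 0 < mo σ ((m + e i) none) := ho1 _
        calc ‖coeff m' (f i)‖ * wt lam ρ (mo σ) (m + m')
            = ‖coeff m' (f i)‖ * (ρ ^ lv lam (m + e i) * ρ ^ (lv lam m' - lv lam (e i))) *
                mo σ ((m + m') none) := by
              rw [wt, hsplit]; ring
          _ ≤ ‖coeff m' (f i)‖ * (ρ ^ lv lam (m + e i) * ρ ^ (lv lam m' - lv lam (e i))) *
                (mo σ ((m + e i) none) * mo σ (l + 1)) :=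
              mul_le_mul_of_nonneg_left h1 (by positivity)
          _ = wt lam ρ (mo σ) (m + e i) *
                (‖coeff m' (f i)‖ * ρ ^ (lv lam m' - lv lam (e i)) * mo σ (l + 1)) := by
              rw [wt]; ring
          _ ≤ wt lam ρ (mo σ) (m + e i) * (A i ρ m' + ε * (1 / 2) ^ m'.degree) := by
              refine mul_le_mul_of_nonneg_left ?_ (hwt _).le
              have := hA0 i ρ m' hρ
              linarith
      · have h1 : A i ρ m' = ‖coeff m' (f i)‖ * ρ ^ (lv lam m' - lv lam (e i)) := by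
          simp only [hA]
          rw [if_pos ⟨h.symm, hne⟩]
        have h2 : (m + m') none = (m + e i) none := by
          rw [Finsupp.add_apply, Finsupp.add_apply, h]
        calc ‖coeff m' (f i)‖ * wt lam ρ (mo σ) (m + m')
            = wt lam ρ (mo σ) (m + e i) * A i ρ m' := by
              rw [h1, wt, hsplit, h2, wt]; ring
          _ ≤ wt lam ρ (mo σ) (m + e i) * (A i ρ m' + ε * (1 / 2) ^ m'.degree) := by
              refine mul_le_mul_of_nonneg_left ?_ (hwt _).le
              linarith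
    have hsum : Summable fun m' => wt lam ρ (mo σ) (m + e i) * (A i ρ m' + ε * (1 / 2) ^ m'.degree) :=
      ((hAs i ρ hρ hρle).add (hdeg.mul_left ε)).mul_left _
    have hs0 : ∀ m', 0 ≤ (if m' = e i then 0 else ‖coeff m' (f i)‖ * wt lam ρ (mo σ) (m + m')) := by
      intro m'
      split_ifs
      · exact le_rfl
      · exact mul_nonneg (norm_nonneg _) (hwt _).le
    have hs1 : ∀ m', (if m' = e i then 0 else ‖coeff m' (f i)‖ * wt lam ρ (mo σ) (m + m')) ≤
        wt lam ρ (mo σ) (m + e i) * (A i ρ m' + ε * (1 / 2) ^ m'.degree) := by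
      intro m'
      split_ifs with h
      · have hpos2 : 0 ≤ ε * (1 / 2 : ℝ) ^ m'.degree := by positivity
        exact mul_nonneg (hwt _).le (add_nonneg (hA0 i ρ m' hρ) hpos2)
      · exact key m' h
    have hs2 : Summable fun m' =>
        (if m' = e i then 0 else ‖coeff m' (f i)‖ * wt lam ρ (mo σ) (m + m')) :=
      Summable.of_nonneg_of_le hs0 hs1 hsum
    refine ⟨?_, ?_⟩
    · have h1 : Summable fun m' : Ex d =>
          (if m' = e i then ‖coeff m' (f i)‖ * wt lam ρ (mo σ) (m + m') else 0) := by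
        refine summable_of_ne_finset_zero (s := {e i}) fun m' hm' => ?_
        rw [if_neg (by simpa using hm')]
      refine (hs2.add h1).congr fun m' => ?_
      split_ifs <;> simp
    · refine (hs2.tsum_le_tsum hs1 hsum).trans ?_
      rw [tsum_mul_left, (hAs i ρ hρ hρle).tsum_add (hdeg.mul_left ε), tsum_mul_left,
        mul_comm (1 / 2 : ℝ)]
      refine mul_le_mul_of_nonneg_left ?_ (hwt _).le
      have := hρA i
      linarith


/-- a symbol with a summable one-sided weight is micro -/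
theorem micro_of_summable {lam : Fin d → ℝ} (hw : Wt lam) {ρ σ : ℝ} (h0 : 0 < ρ)
    (h1 : ρ < 1) (hσ : 0 < σ) (g : Ser d)
    (hg : Summable fun m => ‖coeff m g‖ * wt lam ρ (mo σ) m) : IsMicro g := by
  have hL : 0 ≤ ∑ i, lam i := Finset.sum_nonneg fun i _ => (hw.pos i).le
  have hlv : ∀ m : Ex d, lv lam m ≤ (∑ i, lam i) * (m.degree : ℝ) := by
    intro m
    rw [lv, Finset.sum_mul]
    refine Finset.sum_le_sum fun i _ => mul_le_mul_of_nonneg_left ?_ (hw.pos i).le
    have h2 : m (some i) ≤ m.degree := by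
      rw [Finsupp.degree_eq_sum]
      exact Finset.single_le_sum (f := fun i => m i) (fun _ _ => Nat.zero_le _)
        (Finset.mem_univ (some i))
    exact_mod_cast h2
  have hmo : ∀ l, 0 < mo σ l := fun l => by unfold mo; positivity
  have hwt : ∀ m, 0 < wt lam ρ (mo σ) m := fun m => mul_pos (Real.rpow_pos_of_pos h0 _) (hmo _)
  set S : ℝ := ∑' m, ‖coeff m g‖ * wt lam ρ (mo σ) m with hS
  have hS0 : 0 ≤ S := tsum_nonneg fun m => mul_nonneg (norm_nonneg _) (hwt m).le
  set P : ℝ := ρ ^ (-(∑ i, lam i)) with hP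
  have hP1 : 1 ≤ P := by
    rw [hP, Real.rpow_neg h0.le]
    exact one_le_inv₀ (Real.rpow_pos_of_pos h0 _) |>.2 (Real.rpow_le_one h0.le h1.le hL)
  set Q : ℝ := max 1 σ⁻¹ with hQ
  have hQ1 : 1 ≤ Q := le_max_left _ _
  refine ⟨max 1 S * (P * Q), fun m => ?_⟩
  have h2 : ‖coeff m g‖ * wt lam ρ (mo σ) m ≤ S :=
    hg.le_tsum m fun m _ => mul_nonneg (norm_nonneg _) (hwt m).le
  have h3 : ρ ^ (-lv lam m) ≤ P ^ m.degree := by
    rw [hP, ← Real.rpow_natCast, ← Real.rpow_mul h0.le]
    refine Real.rpow_le_rpow_of_exponent_ge h0 h1.le ?_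
    have := hlv m
    linarith
  have h4 : σ⁻¹ ^ m none ≤ Q ^ m.degree := by
    have h5 : m none ≤ m.degree := by
      rw [Finsupp.degree_eq_sum]
      exact Finset.single_le_sum (f := fun i => m i) (fun _ _ => Nat.zero_le _)
        (Finset.mem_univ none)
    exact (pow_le_pow_left₀ (by positivity) (le_max_right _ _) _).trans
      (pow_le_pow_right₀ hQ1 h5)
  have h5 : ‖coeff m g‖ = ‖coeff m g‖ * wt lam ρ (mo σ) m *
      (ρ ^ (-lv lam m) * (σ⁻¹ ^ m none * (m none).factorial)) := by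
    rw [wt, mo, Real.rpow_neg h0.le]
    have h6 := (Real.rpow_pos_of_pos h0 (lv lam m)).ne'
    have h7 := hσ.ne'
    have h8 : ((m none).factorial : ℝ) ≠ 0 := by positivity
    have h9 : σ ^ m none * σ⁻¹ ^ m none = 1 := by
      rw [← mul_pow, mul_inv_cancel₀ h7, one_pow]
    calc ‖coeff m g‖ = ‖coeff m g‖ * (σ ^ m none * σ⁻¹ ^ m none) := by rw [h9, mul_one]
      _ = _ := by field_simp
  have hM : (1 : ℝ) ≤ max 1 S * (P * Q) := by
    have e1 : (1 : ℝ) ≤ P * Q := by nlinarith
    have e2 : (1 : ℝ) ≤ max 1 S := le_max_left _ _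
    nlinarith
  rw [h5]
  calc ‖coeff m g‖ * wt lam ρ (mo σ) m * (ρ ^ (-lv lam m) * (σ⁻¹ ^ m none * (m none).factorial))
      ≤ max 1 S * (P ^ m.degree * (Q ^ m.degree * (m none).factorial)) := by
        refine mul_le_mul (h2.trans (le_max_right _ _)) ?_ (by positivity) (by positivity)
        exact mul_le_mul h3 (mul_le_mul_of_nonneg_right h4 (by positivity)) (by positivity)
          (by positivity)
    _ = max 1 S * (P * Q) ^ m.degree * (m none).factorial := by rw [mul_pow]; ring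
    _ ≤ (max 1 S * (P * Q)) ^ (m.degree + 1) * (m none).factorial := by
        refine mul_le_mul_of_nonneg_right ?_ (by positivity)
        rw [pow_succ, mul_pow (max 1 S)]
        have e1 : (1 : ℝ) ≤ max 1 S ^ m.degree := one_le_pow₀ (le_max_left _ _)
        have e2 : (0 : ℝ) ≤ (P * Q) ^ m.degree := by positivity
        have e3 : (1 : ℝ) ≤ P * Q := by nlinarith
        have e4 : (0 : ℝ) < max 1 S := lt_of_lt_of_le one_pos (le_max_left _ _)
        calc max 1 S * (P * Q) ^ m.degree = 1 * (P * Q) ^ m.degree * (max 1 S * 1) := by ring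
          _ ≤ max 1 S ^ m.degree * (P * Q) ^ m.degree * (max 1 S * (P * Q)) := by
              refine mul_le_mul (mul_le_mul_of_nonneg_right e1 e2)
                (mul_le_mul_of_nonneg_left e3 e4.le) (by positivity) (by positivity)

private lemma m7_quo {k : ℕ} (e : Fin k → Ex d) (i : Fin k) {u : Ser d}
    (hu : IsMicro u) : IsMicro (quo e i u) := by
  obtain ⟨C, hC⟩ := hu
  set D : ℝ := max |C| 1 with hD
  have hD1 : 1 ≤ D := le_max_right _ _
  have hCD : ∀ m : Ex d, ‖coeff m u‖ ≤ D ^ (m.degree + 1) * (m none).factorial := fun m => by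
    refine (hC m).trans (mul_le_mul_of_nonneg_right ((le_abs_self _).trans ?_) (by positivity))
    rw [abs_pow]
    exact pow_le_pow_left₀ (abs_nonneg _) (le_max_left _ _) _
  have hfac : ∀ p q : ℕ, ((p + q).factorial : ℝ) ≤ 2 ^ (p + q) * (p.factorial * q.factorial) := by
    intro p q
    have h1 := Nat.add_choose_mul_factorial_mul_factorial p q
    have h2 : (p + q).choose q ≤ 2 ^ (p + q) := Nat.choose_le_two_pow _ _
    have h3 : (p + q).factorial ≤ 2 ^ (p + q) * (p.factorial * q.factorial) := by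
      rw [← h1, mul_assoc]
      exact Nat.mul_le_mul_right _ h2
    exact_mod_cast h3
  set A : ℝ := D ^ (e i).degree * 2 ^ (e i none) * (e i none).factorial with hA
  have hA1 : 1 ≤ A := by
    have e1 : (1 : ℝ) ≤ D ^ (e i).degree := one_le_pow₀ hD1
    have e2 : (1 : ℝ) ≤ 2 ^ (e i none) := one_le_pow₀ (by norm_num)
    have e3 : (1 : ℝ) ≤ (e i none).factorial := by exact_mod_cast Nat.factorial_pos _
    have e4 : (1 : ℝ) ≤ D ^ (e i).degree * 2 ^ (e i none) := by nlinarith
    rw [hA]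
    nlinarith
  refine ⟨A * (2 * D), fun m => ?_⟩
  have h1 : coeff m (quo e i u) = if cls e (m + e i) = some i then coeff (m + e i) u else 0 := rfl
  rw [h1]
  split_ifs
  · refine (hCD _).trans ?_
    rw [Finsupp.add_apply, map_add]
    have h5 : m none ≤ m.degree := by
      rw [Finsupp.degree_eq_sum]
      exact Finset.single_le_sum (f := fun i => m i) (fun _ _ => Nat.zero_le _)
        (Finset.mem_univ none)
    calc D ^ (m.degree + (e i).degree + 1) * ((m none + e i none).factorial : ℝ)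
        ≤ D ^ (m.degree + (e i).degree + 1) *
            (2 ^ (m none + e i none) * ((m none).factorial * (e i none).factorial)) :=
          mul_le_mul_of_nonneg_left (hfac _ _) (by positivity)
      _ = A * (D ^ (m.degree + 1) * 2 ^ (m none)) * (m none).factorial := by rw [hA]; ring
      _ ≤ A ^ (m.degree + 1) * (D ^ (m.degree + 1) * 2 ^ (m.degree + 1)) * (m none).factorial := by
          refine mul_le_mul_of_nonneg_right ?_ (by positivity)
          refine mul_le_mul (le_self_pow₀ hA1 (by omega)) ?_ (by positivity) (by positivity)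
          exact mul_le_mul_of_nonneg_left (pow_le_pow_right₀ (by norm_num) (by omega))
            (by positivity)
      _ = _ := by rw [← mul_pow, ← mul_pow, mul_comm D 2]
  · rw [norm_zero]; positivity

private lemma m7_rem {k : ℕ} (e : Fin k → Ex d) {u : Ser d} (hu : IsMicro u) :
    IsMicro (rem e u) := by
  obtain ⟨C, hC⟩ := hu
  refine ⟨|C|, fun m => ?_⟩
  have h1 : coeff m (rem e u) = if cls e m = none then coeff m u else 0 := rfl
  rw [h1]
  split_ifs
  · refine (hC m).trans (mul_le_mul_of_nonneg_right ?_ (by positivity))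
    rw [← abs_pow]
    exact le_abs_self _
  · rw [norm_zero]; positivity

/-- the division theorem for microdifferential symbols -/
theorem division_micro {lam : Fin d → ℝ} (hw : Wt lam) {k : ℕ} (f : Fin k → Ser d)
    (hf : ∀ i, IsMicro (f i)) (e : Fin k → Ex d) (he : ∀ i, Lead lam (f i) (e i)) (g : Ser d)
    (hg : IsMicro g) :
    ∃ (q : Fin k → Ser d) (r : Ser d), (∀ i, IsMicro (q i)) ∧ IsMicro r ∧
      g = ∑ i, q i * f i + r ∧ ∀ i m, e i ≤ m → coeff m r = 0 := by
  obtain ⟨ρ, σ, h0, h1, hσ, hgs, hfs⟩ := exists_weights_micro hw f hf e he g hg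
  have ho : ∀ l, 0 < mo σ l := fun l => by unfold mo; positivity
  obtain ⟨u, hus, hu⟩ := exists_fix f e he h0 ho hfs g hgs
  have huf : IsMicro u := micro_of_summable hw h0 h1 hσ u hus
  refine ⟨fun i => quo e i u, rem e u, fun i => m7_quo e i huf, m7_rem e huf, ?_,
    fun i m h => rem_zero e u i m h⟩
  have hs := split e u
  have h2 : err e f u = ∑ i, quo e i u * monomial (e i) 1 - ∑ i, quo e i u * f i := by
    rw [err, ← Finset.sum_sub_distrib]
    exact Finset.sum_congr rfl fun i _ => by rw [mul_sub]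
  have h3 : g = u - err e f u := eq_sub_of_add_eq hu.symm
  rw [h3, h2]
  nth_rewrite 1 [hs]
  abel

private lemma m8_dickson (S : Set (Ex d)) :
    ∃ F : Set (Ex d), F.Finite ∧ F ⊆ S ∧ ∀ e ∈ S, ∃ e' ∈ F, e' ≤ e := by
  refine ⟨{e | Minimal (· ∈ S) e}, ?_, fun e he => he.prop, fun e he => ?_⟩
  · exact WellQuasiOrderedLE.finite_of_isAntichain (setOfPred_minimal_antichain _)
  · obtain ⟨b, hb, hm⟩ := exists_minimal_le_of_wellFoundedLT (· ∈ S) e he
    exact ⟨b, hm, hb⟩

instance noetherian_micro (d : ℕ) : IsNoetherianRing (micro d).alg := by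
  classical
  obtain ⟨lam, hw⟩ := exists_wt d
  rw [isNoetherianRing_iff_ideal_fg]
  intro I
  obtain ⟨F, hF, hFS, hFe⟩ :=
    m8_dickson {e : Ex d | ∃ f ∈ I, Lead lam (f : Ser d) e}
  choose fn hfn hlead using fun e : F => hFS e.2
  have : Finite F := hF
  obtain ⟨k, ⟨eq⟩⟩ := Finite.exists_equiv_fin F
  refine ⟨Finset.univ.image (fun i : Fin k => fn (eq.symm i)), le_antisymm ?_ ?_⟩
  · rw [Ideal.span_le]
    intro g hg
    rw [Finset.coe_image, Set.mem_image] at hg
    obtain ⟨i, -, rfl⟩ := hg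
    exact hfn _
  · intro g hg
    obtain ⟨q, r, hq, hr, hgr, hr0⟩ := division_micro hw (fun i : Fin k => (fn (eq.symm i) : Ser d))
      (fun i => (fn (eq.symm i)).2) (fun i => ((eq.symm i : F) : Ex d)) (fun i => hlead _)
      (g : Ser d) g.2
    set q' : Fin k → (micro d).alg := fun i => ⟨q i, hq i⟩ with hq'
    set r' : (micro d).alg := ⟨r, hr⟩ with hr'
    have hg' : g = ∑ i, q' i * fn (eq.symm i) + r' := by
      apply Subtype.ext
      rw [hgr]
      simp [hq', hr']
    have hs : ∑ i, q' i * fn (eq.symm i) ∈ Ideal.span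
        ((Finset.univ.image (fun i : Fin k => fn (eq.symm i)) : Finset (micro d).alg) :
          Set (micro d).alg) := by
      refine Ideal.sum_mem _ fun i _ => Ideal.mul_mem_left _ _ (Ideal.subset_span ?_)
      rw [Finset.coe_image]
      exact ⟨i, Finset.mem_coe.2 (Finset.mem_univ i), rfl⟩
    have hsI : ∑ i, q' i * fn (eq.symm i) ∈ I :=
      Ideal.sum_mem _ fun i _ => Ideal.mul_mem_left _ _ (hfn _)
    have hrI : r' ∈ I := by
      have : r' = g - ∑ i, q' i * fn (eq.symm i) := by rw [hg']; ring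
      rw [this]
      exact Ideal.sub_mem _ hg hsI
    have hr00 : r = 0 := by
      by_contra hne
      have hS : {m : Ex d | coeff m r ≠ 0}.Nonempty := by
        by_contra hem
        rw [Set.not_nonempty_iff_eq_empty, Set.eq_empty_iff_forall_notMem] at hem
        apply hne
        ext m
        simpa using hem m
      obtain ⟨e, he, hmin⟩ := hw.exists_first _ hS
      have hc : coeff e r ≠ 0 := he
      set c : (micro d).alg := algebraMap ℂ _ (coeff e r)⁻¹ with hc'
      have hval : ((c * r' : (micro d).alg) : Ser d) = (coeff e r)⁻¹ • r := by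
        rw [hc', ← Algebra.smul_def]
        rfl
      have hl : Lead lam ((c * r' : (micro d).alg) : Ser d) e := by
        rw [hval]
        refine ⟨by simp [hc], fun m hm hme => hmin m ?_ hme⟩
        intro h0
        apply hm
        simp [h0]
      obtain ⟨e', he', hle⟩ := hFe e ⟨c * r', Ideal.mul_mem_left _ _ hrI, hl⟩
      exact hc (hr0 (eq ⟨e', he'⟩) e (by simpa using hle))
    have : r' = 0 := Subtype.ext hr00
    rw [hg', this, add_zero]
    exact hs


/-- a micro symbol with nonzero constant term is invertible -/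
theorem isMicro_inv {f : Ser d} (hf : IsMicro f) (h0 : coeff 0 f ≠ 0) : IsMicro f⁻¹ := by
  obtain ⟨lam, hw⟩ := exists_wt d
  set c : ℂ := (coeff 0 f)⁻¹ with hc
  set F : Ser d := c • f with hF
  have hFm : IsMicro F := (micro d).alg.smul_mem hf c
  have hL : Lead lam F 0 := by
    refine ⟨by rw [hF, map_smul, hc, smul_eq_mul, inv_mul_cancel₀ h0], fun m _ hm => ?_⟩
    rcases Nat.eq_zero_or_pos (m none) with h | h
    · right
      refine ⟨h.symm, ?_⟩
      have h1 : lv lam (0 : Ex d) = 0 := by simp [lv]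
      rw [h1]
      have h2 : 0 ≤ lv lam m := m3b_lv_nonneg hw m
      rcases h2.lt_or_eq with h3 | h3
      · exact h3
      · exact absurd (hw.inj m 0 h (h3.symm.trans h1.symm)) hm
    · left
      exact h
  obtain ⟨q, r, hq, -, hgr, hr0⟩ := division_micro hw (fun _ : Fin 1 => F) (fun _ => hFm)
    (fun _ => 0) (fun _ => hL) 1 (micro d).alg.one_mem
  have hr : r = 0 := by
    ext m
    rw [map_zero]
    exact hr0 0 m zero_le
  rw [hr, add_zero, Fin.sum_univ_one] at hgr
  have h1 : f * (c • q 0) = 1 := by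
    rw [mul_smul_comm, mul_comm, ← mul_smul_comm]
    exact hgr.symm
  have h2 : f⁻¹ = c • q 0 := by
    have h3 : f⁻¹ * f = 1 := MvPowerSeries.inv_mul_cancel _ h0
    calc f⁻¹ = f⁻¹ * (f * (c • q 0)) := by rw [h1, mul_one]
      _ = c • q 0 := by rw [← mul_assoc, h3, one_mul]
  rw [h2]
  exact (micro d).alg.smul_mem (hq 0) c

instance domain_micro (d : ℕ) : IsDomain (micro d).alg := by
  have h : IsDomain (Ser d) := NoZeroDivisors.to_isDomain _
  exact Subalgebra.isDomain _

lemma isUnit_iff_micro (f : (micro d).alg) : IsUnit f ↔ coeff 0 (f : Ser d) ≠ 0 := by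
  constructor
  · intro h h0
    obtain ⟨g, hg⟩ := h.exists_right_inv
    have h1 : (f : Ser d) * (g : Ser d) = 1 := congrArg Subtype.val hg
    have h2 : constantCoeff (f : Ser d) = 0 := h0
    have h3 := congrArg (constantCoeff (σ := Option (Fin d)) (R := ℂ)) h1
    rw [map_mul, h2, zero_mul, map_one] at h3
    exact zero_ne_one h3
  · intro h
    have h1 : (f : Ser d) * (f : Ser d)⁻¹ = 1 := MvPowerSeries.mul_inv_cancel _ h
    exact IsUnit.of_mul_eq_one ⟨(f : Ser d)⁻¹, isMicro_inv f.2 h⟩ (Subtype.ext h1)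

instance isLocal_micro (d : ℕ) : IsLocalRing (micro d).alg := by
  refine IsLocalRing.of_nonunits_add fun a b ha hb => ?_
  rw [mem_nonunits_iff, isUnit_iff_micro, not_not] at *
  have h1 : coeff 0 ((a + b : (micro d).alg) : Ser d) =
    coeff 0 (a : Ser d) + coeff 0 (b : Ser d) := map_add _ _ _
  rw [h1, ha, hb, add_zero]


end Pool.Agent.Stf
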