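import Mathlib

/-!
# Finite free resolutions (block D of P11)

Pure commutative algebra; everything is in `Type`.
-/

set_option autoImplicit false

namespace Pool.Agent.Stf

/-- `L` has a finite free resolution of length `≤ n` by free modules of finite rank -/
def FFR (A : Type) [CommRing A] : ℕ → (L : Type) → [AddCommGroup L] → [Module A L] → Prop
  | 0, L, _, _ => Module.Free A L ∧ Module.Finite A L
  | n + 1, L, _, _ => ∃ (k : ℕ) (π : (Fin k → A) →ₗ[A] L), Function.Surjective π ∧
      FFR A n (LinearMap.ker π)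

section basic

variable {A : Type} [CommRing A] {L L' : Type} [AddCommGroup L] [Module A L] [AddCommGroup L']
  [Module A L']

private theorem k1_of_eq {n : ℕ} {M : Type} [AddCommGroup M] [Module A M] {P Q : Submodule A M}
    (e : P = Q) (h : FFR A n P) : FFR A n Q := by
  subst e
  exact h

/-- MODULE k1 -/
theorem FFR.of_equiv {n : ℕ} (e : L ≃ₗ[A] L') (h : FFR A n L) : FFR A n L' := by
  cases n with
  | zero =>
    obtain ⟨h1, h2⟩ := h
    exact ⟨Module.Free.of_equiv e, Module.Finite.equiv e⟩
  | succ n =>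
    obtain ⟨k, π, hπ, hk⟩ := h
    exact ⟨k, e.toLinearMap ∘ₗ π, e.surjective.comp hπ,
      k1_of_eq (LinearEquiv.ker_comp e π).symm hk⟩

/-- MODULE k1 (for `n = 0` take `π` an isomorphism; otherwise the same `π`) -/
theorem FFR.succ {n : ℕ} (h : FFR A n L) : FFR A (n + 1) L := by
  induction n generalizing L with
  | zero =>
    obtain ⟨h1, h2⟩ := h
    let b := (Module.Free.chooseBasis A L).reindex (Fintype.equivFin _)
    refine ⟨_, b.equivFun.symm.toLinearMap, b.equivFun.symm.surjective, ?_⟩
    have hb : LinearMap.ker b.equivFun.symm.toLinearMap = ⊥ := LinearEquiv.ker _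
    refine k1_of_eq hb.symm ?_
    exact ⟨inferInstance, inferInstance⟩
  | succ n ih =>
    obtain ⟨k, π, hπ, hk⟩ := h
    exact ⟨k, π, hπ, ih hk⟩

end basic

/-! ## k2: lifting a resolution modulo a regular element -/

/-- The linear map given by lifts of the images of the unit vectors. -/
private noncomputable def k2_map {A K : Type} [CommRing A] [AddCommGroup K] [Module A K]
    {ι : Type} [Fintype ι] (v : ι → K) : (ι → A) →ₗ[A] K := Fintype.linearCombination A v

private theorem k2_map_apply {A K : Type} [CommRing A] [AddCommGroup K] [Module A K]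
    {ι : Type} [Fintype ι] (v : ι → K) (a : ι → A) : k2_map v a = ∑ i, a i • v i :=
  Fintype.linearCombination_apply A v a

/-- `(x)` is contained in the Jacobson radical. -/
private theorem k2_jac {A : Type} [CommRing A] [IsLocalRing A] (x : A) (hx : ¬ IsUnit x) :
    Ideal.span {x} ≤ (⊥ : Ideal A).jacobson := by
  rw [IsLocalRing.jacobson_eq_maximalIdeal (⊥ : Ideal A) bot_ne_top, Ideal.span_singleton_le_iff_mem]
  exact (IsLocalRing.mem_maximalIdeal x).2 hx

section lift

variable {A B : Type} [CommRing A] [CommRing B] (f : A →+* B) (hf : Function.Surjective f)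
  (x : A) (hfx : RingHom.ker f = Ideal.span {x})
  {K : Type} [AddCommGroup K] [Module A K] {K' : Type} [AddCommGroup K'] [Module B K']
  (q : K →+ K') (hql : ∀ (a : A) (u : K), q (a • u) = f a • q u)

include hfx in
private theorem k2_fx : f x = 0 := by
  have : x ∈ RingHom.ker f := by rw [hfx]; exact Ideal.mem_span_singleton_self x
  exact this

include hfx in
/-- A vector which is killed by `f` is a multiple of `x`. -/
private theorem k2_vec {ι : Type} (a : ι → A) (h : ∀ i, f (a i) = 0) :
    ∃ c : ι → A, a = x • c := by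
  have h1 : ∀ i, ∃ c, a i = x * c := fun i => by
    have h2 : a i ∈ Ideal.span {x} := by rw [← hfx]; exact h i
    obtain ⟨c, hc⟩ := Ideal.mem_span_singleton'.1 h2
    exact ⟨c, by rw [← hc, mul_comm]⟩
  choose c hc using h1
  exact ⟨c, funext fun i => by rw [hc i]; rfl⟩

include hql in
private theorem k2_q {ι : Type} [Fintype ι] (v : ι → K) (a : ι → A) :
    q (k2_map v a) = ∑ i, f (a i) • q (v i) := by
  rw [k2_map_apply, map_sum]
  exact Finset.sum_congr rfl fun i _ => hql _ _

include hf hql in
/-- Surjectivity by Nakayama. -/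
private theorem k2_surj [IsLocalRing A] [Module.Finite A K] (hx : ¬ IsUnit x)
    (hqk : ∀ u : K, q u = 0 → ∃ v : K, u = x • v) {ι : Type} [Fintype ι] (v : ι → K)
    (h : ∀ u : K', ∃ c : ι → B, u = ∑ i, c i • q (v i)) :
    Function.Surjective (k2_map (A := A) v) := by
  rw [← LinearMap.range_eq_top, ← top_le_iff]
  refine Submodule.le_of_le_smul_of_le_jacobson_bot (I := Ideal.span {x}) Module.Finite.fg_top
    (k2_jac x hx) fun u _ => ?_
  obtain ⟨c, hc⟩ := h (q u)
  choose g hg using hf
  have h1 : q (u - k2_map v fun i => g (c i)) = 0 := by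
    rw [map_sub, k2_q f q hql, hc, sub_eq_zero]
    exact Finset.sum_congr rfl fun i _ => by rw [hg]
  obtain ⟨w, hw⟩ := hqk _ h1
  rw [← sub_add_cancel u (k2_map v fun i => g (c i)), hw, add_comm]
  exact Submodule.add_mem_sup ⟨_, rfl⟩
    (Submodule.smul_mem_smul (Ideal.mem_span_singleton_self x) trivial)

end lift

/-- MODULE k2. `K' = K / x K` over `B = A / x A`. Induction on `n`.
`n = 0`: lift a basis of `K'`; the map `A^k → K` is onto by Nakayama, its kernel `N` satisfies
`N = x N` (as `x` is regular on `K` and the images are independent) and is finitely generated, so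
`N = 0`. `n + 1`: lift the surjection `B^k → K'` to `A^k → K`, onto by Nakayama; the kernel `N` is
finitely generated, `x` is regular on it, and `N → ker (B^k → K')` is onto with kernel `x N`. -/
theorem FFR.lift {A B : Type} [CommRing A] [CommRing B] [IsLocalRing A] [IsNoetherianRing A]
    (f : A →+* B) (hf : Function.Surjective f) (x : A) (hfx : RingHom.ker f = Ideal.span {x})
    (hx : ¬ IsUnit x) (hx0 : ∀ a, x * a = 0 → a = 0) (n : ℕ) (K : Type) [AddCommGroup K]
    [Module A K] [Module.Finite A K] (hK : ∀ u : K, x • u = 0 → u = 0) (K' : Type)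
    [AddCommGroup K'] [Module B K'] (q : K →+ K') (hq : Function.Surjective q)
    (hql : ∀ (a : A) (u : K), q (a • u) = f a • q u)
    (hqk : ∀ u : K, q u = 0 → ∃ v : K, u = x • v) (h : FFR B n K') : FFR A n K := by
  induction n generalizing K K' with
  | zero =>
    obtain ⟨h1, h2⟩ := h
    have b := Module.Free.chooseBasis B K'
    choose v hv using fun i => hq (b i)
    have hs := k2_surj f hf x q hql hx hqk v fun u => ⟨b.repr u, by
      conv_lhs => rw [← b.sum_repr u]
      exact Finset.sum_congr rfl fun i _ => by rw [hv]⟩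
    have hi : LinearMap.ker (k2_map (A := A) v) = ⊥ := by
      refine Submodule.eq_bot_of_le_smul_of_le_jacobson_bot (Ideal.span {x}) _
        (IsNoetherian.noetherian _) (fun a ha => ?_) (k2_jac x hx)
      rw [LinearMap.mem_ker] at ha
      have h3 : ∑ i, f (a i) • b i = 0 := by
        have h4 := k2_q f q hql v a
        rw [ha, map_zero] at h4
        rw [h4]
        exact Finset.sum_congr rfl fun i _ => by rw [hv]
      have h5 : ∀ i, f (a i) = 0 := fun i =>
        Fintype.linearIndependent_iff.1 b.linearIndependent (fun i => f (a i)) h3 i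
      obtain ⟨c, rfl⟩ := k2_vec f x hfx a h5
      refine Submodule.smul_mem_smul (Ideal.mem_span_singleton_self x) ?_
      rw [LinearMap.mem_ker]
      rw [map_smul] at ha
      exact hK _ ha
    let e := LinearEquiv.ofBijective (k2_map (A := A) v) ⟨LinearMap.ker_eq_bot.1 hi, hs⟩
    exact ⟨Module.Free.of_equiv e, inferInstance⟩
  | succ n ih =>
    obtain ⟨k, π, hπ, h1⟩ := h
    choose v hv using fun i => hq (π (Pi.single i 1))
    have hpi : ∀ c : Fin k → B, π c = ∑ i, c i • q (v i) := fun c => by
      conv_lhs => rw [pi_eq_sum_univ' c]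
      rw [map_sum]
      refine Finset.sum_congr rfl fun i _ => ?_
      rw [map_smul, hv]
    have hs := k2_surj f hf x q hql hx hqk v fun u => by
      obtain ⟨c, rfl⟩ := hπ u
      exact ⟨c, hpi c⟩
    refine ⟨k, k2_map v, hs, ?_⟩
    have hqa : ∀ a : Fin k → A, q (k2_map v a) = π fun i => f (a i) := fun a => by
      rw [k2_q f q hql, hpi]
    let q' : LinearMap.ker (k2_map (A := A) v) →+ LinearMap.ker π :=
      { toFun := fun a => ⟨fun i => f (a.1 i), by
          rw [LinearMap.mem_ker, ← hqa, a.2, map_zero]⟩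
        map_zero' := Subtype.ext (funext fun i => map_zero f)
        map_add' := fun a b => Subtype.ext (funext fun i => map_add f _ _) }
    refine ih (LinearMap.ker (k2_map (A := A) v)) (fun u hu => ?_) (LinearMap.ker π) q'
      (fun c => ?_) (fun a u => ?_) (fun u hu => ?_) h1
    · refine Subtype.ext (funext fun i => hx0 _ ?_)
      exact congrFun (congrArg Subtype.val hu) i
    · choose g hg using hf
      have h2 : q (k2_map v fun i => g (c.1 i)) = 0 := by
        rw [hqa]
        have h3 : (fun i => f (g (c.1 i))) = c.1 := funext fun i => hg _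
        rw [h3]
        exact c.2
      obtain ⟨w, hw⟩ := hqk _ h2
      obtain ⟨a', rfl⟩ := hs w
      refine ⟨⟨(fun i => g (c.1 i)) - x • a', ?_⟩, ?_⟩
      · rw [LinearMap.mem_ker, map_sub, map_smul, hw, sub_self]
      · refine Subtype.ext (funext fun i => ?_)
        show f (g (c.1 i) - x * a' i) = c.1 i
        rw [map_sub, map_mul, k2_fx f x hfx, zero_mul, sub_zero, hg]
    · refine Subtype.ext (funext fun i => ?_)
      exact map_mul f a (u.1 i)
    · have h2 : ∀ i, f (u.1 i) = 0 := fun i => congrFun (congrArg Subtype.val hu) i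
      obtain ⟨c, hc⟩ := k2_vec f x hfx u.1 h2
      refine ⟨⟨c, ?_⟩, Subtype.ext hc⟩
      rw [LinearMap.mem_ker]
      refine hK _ ?_
      rw [← map_smul, ← hc]
      exact u.2

/-! ## k3: regular local rings -/

/-- `A` is a regular local ring of dimension `n`, in the form in which it is used -/
def Reg : ℕ → (A : Type) → [CommRing A] → Prop
  | 0, A, _ => IsField A
  | n + 1, A, _ => IsLocalRing A ∧ IsNoetherianRing A ∧
      ∃ (B : Type) (_ : CommRing B) (f : A →+* B) (x : A), Function.Surjective f ∧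
        RingHom.ker f = Ideal.span {x} ∧ ¬ IsUnit x ∧ (∀ a, x * a = 0 → a = 0) ∧ Reg n B

/-- MODULE k3. Induction on `n`: `n = 0`: vector spaces are free. `n + 1`: take a surjection
`A^k → L` with kernel `K` (finitely generated); `K / x K` is a finitely generated module over
`B ≃ A / x A`, so it has a resolution of length `≤ n` over `B`, hence `K` over `A` (`FFR.lift`). -/
theorem Reg.ffr (n : ℕ) (A : Type) [CommRing A] (h : Reg n A) (L : Type) [AddCommGroup L]
    [Module A L] [Module.Finite A L] : FFR A n L := by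
  induction n generalizing A L with
  | zero =>
    letI := IsField.toField h
    exact ⟨Module.Free.of_divisionRing A L, inferInstance⟩
  | succ n ih =>
    obtain ⟨hl, hn, B, _, f, x, hf, hfx, hx, hx0, hB⟩ := h
    obtain ⟨k, π, hπ⟩ := Module.Finite.exists_fin' A L
    refine ⟨k, π, hπ, ?_⟩
    let R : Submodule A (LinearMap.ker π) :=
      LinearMap.range (LinearMap.lsmul A (LinearMap.ker π) x)
    have hR : ∀ u : LinearMap.ker π, x • u ∈ R := fun u => ⟨u, rfl⟩
    let K' := LinearMap.ker π ⧸ R
    have hxK : ∀ (a : A), f a = 0 → ∀ u : K', a • u = 0 := by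
      intro a ha u
      obtain ⟨u, rfl⟩ := Submodule.Quotient.mk_surjective R u
      have h2 : a ∈ Ideal.span {x} := by rw [← hfx]; exact ha
      obtain ⟨c, rfl⟩ := Ideal.mem_span_singleton'.1 h2
      rw [← Submodule.Quotient.mk_smul, Submodule.Quotient.mk_eq_zero, mul_comm, mul_smul]
      exact hR _
    choose g hg using hf
    letI : SMul B K' := ⟨fun b u => g b • u⟩
    have hsm : ∀ (c : A) (u : K'), f c • u = c • u := by
      intro c u
      show g (f c) • u = c • u
      rw [← sub_eq_zero, ← sub_smul]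
      exact hxK _ (by rw [map_sub, hg, sub_self]) u
    letI : Module B K' := Function.Surjective.moduleLeft f (fun b => ⟨g b, hg b⟩) hsm
    letI : Algebra A B := f.toAlgebra
    haveI : IsScalarTower A B K' := ⟨fun a b u => by
      obtain ⟨c, rfl⟩ : ∃ c, f c = b := ⟨g b, hg b⟩
      have h1 : a • f c = f (a * c) := by
        rw [Algebra.smul_def, map_mul]
        rfl
      rw [h1, hsm, hsm, mul_smul]⟩
    haveI : Module.Finite B K' := Module.Finite.of_restrictScalars_finite A B K'
    refine FFR.lift f (fun b => ⟨g b, hg b⟩) x hfx hx hx0 n (LinearMap.ker π) (fun u hu => ?_) K'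
      R.mkQ.toAddMonoidHom (Submodule.mkQ_surjective R) (fun a u => ?_) (fun u hu => ?_)
      (ih B hB K')
    · refine Subtype.ext (funext fun i => hx0 _ ?_)
      exact congrFun (congrArg Subtype.val hu) i
    · exact (hsm a (R.mkQ u)).symm
    · have h1 : u ∈ R := (Submodule.Quotient.mk_eq_zero R).1 hu
      obtain ⟨v, hv⟩ := h1
      exact ⟨v, hv.symm⟩

/-! ## k6: from a resolution and a splitting up to `s^N` to a free submodule -/

private lemma k6_reg {A : Type} [CommRing A] {s : A} {L : Type} [AddCommGroup L] [Module A L]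
    (hL : ∀ u : L, s • u = 0 → u = 0) (b : ℕ) (u : L) (h : s ^ b • u = 0) : u = 0 := by
  induction b with
  | zero => rwa [pow_zero, one_smul] at h
  | succ b ih =>
    rw [pow_succ', mul_smul] at h
    exact ih (hL _ h)

private lemma k6_pi {A : Type} [CommRing A] {s : A} (hs : ∀ a : A, s * a = 0 → a = 0) {k : ℕ}
    (u : Fin k → A) (h : s • u = 0) : u = 0 := by
  funext i
  exact hs _ (congrFun h i)

private lemma k6_rho {A : Type} [CommRing A] {M P : Type} [AddCommGroup M] [Module A M]
    [AddCommGroup P] [Module A P] (ψ : M →ₗ[A] P) (hψ : Function.Injective ψ) (c : A)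
    (h : ∀ w, ∃ v, ψ v = c • w) : ∃ ρ : P →ₗ[A] M, ∀ w, ψ (ρ w) = c • w := by
  choose f hf using h
  refine ⟨{ toFun := f, map_add' := fun x y => hψ ?_, map_smul' := fun a x => hψ ?_ }, hf⟩
  · rw [map_add, hf, hf, hf, smul_add]
  · rw [RingHom.id_apply, map_smul, hf, hf, smul_comm]

private lemma k6_zero {A : Type} [CommRing A] (s : A) (L : Type) [AddCommGroup L] [Module A L]
    (h : FFR A 0 L) : ∃ (m r b : ℕ) (ψ : (Fin r → A) →ₗ[A] L × (Fin m → A)),
      Function.Injective ψ ∧ ∀ w, ∃ v, ψ v = s ^ b • w := by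
  obtain ⟨h1, h2⟩ : Module.Free A L ∧ Module.Finite A L := h
  obtain ⟨n, ⟨e⟩⟩ : ∃ n : ℕ, Nonempty ((Fin n → A) ≃ₗ[A] L) := by
    rcases subsingleton_or_nontrivial A with hA | hA
    · have hL : Subsingleton L := Module.subsingleton A L
      exact ⟨0, ⟨0⟩⟩
    · exact ⟨_, ⟨(Module.finBasis A L).equivFun.symm⟩⟩
  refine ⟨0, n, 0, e.toLinearMap.prod 0, ?_, ?_⟩
  · intro x y hxy
    exact e.injective (congrArg Prod.fst hxy)
  · rintro ⟨u, w⟩
    refine ⟨e.symm u, ?_⟩
    refine Prod.ext ?_ (Subsingleton.elim _ _)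
    rw [pow_zero, one_smul]
    exact e.apply_symm_apply u

private lemma k6_succ {A : Type} [CommRing A] (s : A) (hs : ∀ a : A, s * a = 0 → a = 0)
    (L : Type) [AddCommGroup L] [Module A L] (N p : ℕ) (π : (Fin p → A) →ₗ[A] L)
    (σ : L →ₗ[A] (Fin p → A)) (hσ : ∀ u, π (σ u) = s ^ N • u)
    (τ : (Fin p → A) →ₗ[A] LinearMap.ker π)
    (hτ : ∀ v, (τ v : Fin p → A) = s ^ N • v - σ (π v)) (m r b : ℕ)
    (ψ' : (Fin r → A) →ₗ[A] LinearMap.ker π × (Fin m → A)) (h1 : Function.Injective ψ')
    (h2 : ∀ w, ∃ v, ψ' v = s ^ b • w) :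
    ∃ (m r b : ℕ) (ψ : (Fin r → A) →ₗ[A] L × (Fin m → A)), Function.Injective ψ ∧
      ∀ w, ∃ v, ψ v = s ^ b • w := by
  obtain ⟨ρ, hρ⟩ := k6_rho ψ' h1 (s ^ b) h2
  have hρ' : ∀ y, ρ (ψ' y) = s ^ b • y := by
    intro y
    apply h1
    rw [hρ, map_smul]
  let e : (Fin (p + m) → A) ≃ₗ[A] (Fin p → A) × (Fin m → A) :=
    (LinearEquiv.funCongrLeft A A finSumFinEquiv).trans
      (LinearEquiv.sumArrowLequivProdArrow (Fin p) (Fin m) A A)
  let ψ : (Fin p → A) × (Fin m → A) →ₗ[A] L × (Fin r → A) :=
    (π ∘ₗ LinearMap.fst A _ _).prod (ρ ∘ₗ τ.prodMap LinearMap.id)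
  have hψ : ∀ v w, ψ (v, w) = (π v, ρ (τ v, w)) := fun v w => rfl
  refine ⟨r, p + m, N + b, ψ ∘ₗ e.toLinearMap, ?_, ?_⟩
  · have h3 : Function.Injective ψ := by
      rw [← LinearMap.ker_eq_bot, LinearMap.ker_eq_bot']
      rintro ⟨v, w⟩ hvw
      rw [hψ, Prod.mk_eq_zero] at hvw
      obtain ⟨h4, h5⟩ := hvw
      have h6 := hρ (τ v, w)
      rw [h5, map_zero] at h6
      have h7 : s ^ b • (τ v : Fin p → A) = 0 := by
        have := congrArg (fun z => ((z.1 : LinearMap.ker π) : Fin p → A)) h6
        exact this.symm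
      have h8 : s ^ b • w = 0 := (congrArg Prod.snd h6).symm
      have h9 := k6_reg (k6_pi hs) b _ h8
      have h10 := k6_reg (k6_pi hs) b _ h7
      rw [hτ, h4, map_zero, sub_zero] at h10
      have h11 := k6_reg (k6_pi hs) N _ h10
      rw [h9, h11]
      rfl
    exact h3.comp e.injective
  · rintro ⟨u, y⟩
    rcases h4 : ψ' y with ⟨κ, w₀⟩
    refine ⟨e.symm (s ^ b • σ u + (κ : Fin p → A), s ^ N • w₀), ?_⟩
    change ψ (e (e.symm _)) = _
    rw [e.apply_symm_apply, hψ]
    have h5 : π (κ : Fin p → A) = 0 := κ.2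
    have h6 : π (s ^ b • σ u + (κ : Fin p → A)) = s ^ (N + b) • u := by
      rw [map_add, map_smul, hσ, h5, add_zero, smul_smul, pow_add, mul_comm]
    have h7 : τ (s ^ b • σ u + (κ : Fin p → A)) = s ^ N • κ := by
      apply Subtype.ext
      rw [hτ, h6]
      change s ^ N • (s ^ b • σ u + (κ : Fin p → A)) - σ (s ^ (N + b) • u) =
        s ^ N • (κ : Fin p → A)
      rw [map_smul, smul_add, smul_smul, pow_add]
      abel
    rw [h6, h7]
    have h8 : (s ^ N • κ, s ^ N • w₀) = s ^ N • ψ' y := by
      rw [h4]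
      rfl
    rw [h8, map_smul, hρ', smul_smul, ← pow_add]
    rfl

/-- MODULE k6. Induction on `n`. `n = 0`: clear (`m = 0`). `n + 1`: let `π : A^n → L` with kernel
`K`. Lift `μ` through `π` to `μ'` and put `σ = μ' φ : L → A^n`, so `π σ = s^N`, and
`τ = s^N - σ π : A^n → K`, with `τ = s^N` on `K`: so `s^N id_K` factors through `A^n`, and the
induction hypothesis applies to `K`: `ψ' : A^r → K × A^m` injective, and
`ρ : K × A^m → A^r` with `ψ' ρ = s^b`. Then `ψ : A^n × A^m → L × A^r`,
`(v, w) ↦ (π v, ρ (τ v, w))` is injective, and for `u ∈ L`, `y ∈ A^r`, `ψ' y = (κ, w₀)`: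
`ψ (s^b σ u + κ, s^N w₀) = (s^(N+b) u, s^(N+b) y)`. -/
theorem exists_free_sub {A : Type} [CommRing A] (s : A) (hs : ∀ a : A, s * a = 0 → a = 0) (n : ℕ)
    (L : Type) [AddCommGroup L] [Module A L] (hL : ∀ u : L, s • u = 0 → u = 0) (h : FFR A n L)
    (N k : ℕ) (φ : L →ₗ[A] (Fin k → A)) (μ : (Fin k → A) →ₗ[A] L)
    (hμ : ∀ u, μ (φ u) = s ^ N • u) :
    ∃ (m r b : ℕ) (ψ : (Fin r → A) →ₗ[A] L × (Fin m → A)), Function.Injective ψ ∧
      ∀ w, ∃ v, ψ v = s ^ b • w := by
  induction n generalizing L k with
  | zero => exact k6_zero s L h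
  | succ n ih =>
    obtain ⟨p, π, hπ, hK⟩ : ∃ (k : ℕ) (π : (Fin k → A) →ₗ[A] L), Function.Surjective π ∧
      FFR A n (LinearMap.ker π) := h
    obtain ⟨μ', hμ'⟩ := Module.projective_lifting_property π μ hπ
    have h1 : ∀ u, π (μ' (φ u)) = s ^ N • u := by
      intro u
      rw [← hμ, ← hμ']
      rfl
    let σ : L →ₗ[A] (Fin p → A) := μ' ∘ₗ φ
    have h2 : ∀ v, (s ^ N • (LinearMap.id : (Fin p → A) →ₗ[A] (Fin p → A)) - σ ∘ₗ π) v ∈
        LinearMap.ker π := by
      intro v
      rw [LinearMap.mem_ker]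
      change π (s ^ N • v - σ (π v)) = 0
      rw [map_sub, map_smul]
      exact sub_eq_zero.2 (h1 _).symm
    let τ : (Fin p → A) →ₗ[A] LinearMap.ker π :=
      (s ^ N • (LinearMap.id : (Fin p → A) →ₗ[A] (Fin p → A)) - σ ∘ₗ π).codRestrict _ h2
    have hτ : ∀ v, (τ v : Fin p → A) = s ^ N • v - σ (π v) := fun v => rfl
    have h3 : ∀ κ : LinearMap.ker π, τ (Submodule.subtype _ κ) = s ^ N • κ := by
      intro κ
      apply Subtype.ext
      rw [hτ]
      change s ^ N • (κ : Fin p → A) - σ (π κ) = s ^ N • (κ : Fin p → A)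
      rw [κ.2, map_zero, sub_zero]
    obtain ⟨m, r, b, ψ', h4, h5⟩ := ih (LinearMap.ker π)
      (fun u hu => Subtype.ext (k6_pi hs _ (congrArg Subtype.val hu))) hK p
      (Submodule.subtype _) τ h3
    exact k6_succ s hs L N p π σ h1 τ hτ m r b ψ' h4 h5

/-! ## k7: torsion-free modules over a domain -/

private lemma k7_step {A : Type} [CommRing A] [IsDomain A] {L : Type} [AddCommGroup L]
    [Module A L] (s : Finset L) :
    ∃ t : Finset L, LinearIndependent A (fun x : t => (x : L)) ∧
      ∀ x ∈ s, ∃ f : A, f ≠ 0 ∧ f • x ∈ Submodule.span A (t : Set L) := by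
  classical
  induction s using Finset.induction_on with
  | empty => exact ⟨∅, linearIndependent_empty_type, fun x hx => absurd hx (Finset.notMem_empty x)⟩
  | insert a s has ih =>
    obtain ⟨t, ht, hs⟩ := ih
    by_cases h : ∃ f : A, f ≠ 0 ∧ f • a ∈ Submodule.span A (t : Set L)
    · refine ⟨t, ht, fun x hx => ?_⟩
      rcases Finset.mem_insert.1 hx with rfl | hx
      · exact h
      · exact hs x hx
    · have hat : a ∉ t := fun hat =>
        h ⟨1, one_ne_zero, by rw [one_smul]; exact Submodule.subset_span hat⟩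
      refine ⟨insert a t, ?_, fun x hx => ?_⟩
      · rw [linearIndependent_iff']
        have key : ∀ g : L → A, ∑ x ∈ insert a t, g x • x = 0 → ∀ x ∈ insert a t, g x = 0 := by
          intro g hg
          rw [Finset.sum_insert hat] at hg
          have hga : g a = 0 := by
            by_contra hne
            apply h
            refine ⟨g a, hne, ?_⟩
            have e : g a • a = -∑ x ∈ t, g x • x := eq_neg_of_add_eq_zero_left hg
            rw [e]
            exact Submodule.neg_mem _ (Submodule.sum_mem _ fun x hx =>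
              Submodule.smul_mem _ _ (Submodule.subset_span hx))
          rw [hga, zero_smul, zero_add] at hg
          have h2 := linearIndependent_iff'.1 ht Finset.univ (fun x => g x) (by
            rw [Finset.univ_eq_attach, Finset.sum_attach t (fun x => g x • x)]
            exact hg)
          intro x hx
          rcases Finset.mem_insert.1 hx with rfl | hx
          · exact hga
          · exact h2 ⟨x, hx⟩ (Finset.mem_univ _)
        intro S g hg i hi
        have h3 := key (fun x => if hx : x ∈ insert a t then (if (⟨x, hx⟩ : {x // x ∈ insert a t}) ∈ S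
          then g ⟨x, hx⟩ else 0) else 0) (by
            rw [← Finset.sum_attach]
            rw [← hg]
            rw [← Finset.univ_eq_attach]
            symm
            apply Finset.sum_subset_zero_on_sdiff (Finset.subset_univ S)
            · intro x hx
              have : x ∉ S := (Finset.mem_sdiff.1 hx).2
              simp [this]
            · intro x hx
              simp [hx]) i i.2
        simpa [hi] using h3
      · rcases Finset.mem_insert.1 hx with rfl | hx
        · exact ⟨1, one_ne_zero, by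
            rw [one_smul]; exact Submodule.subset_span (by simp)⟩
        · obtain ⟨f, hf, hf2⟩ := hs x hx
          exact ⟨f, hf, Submodule.span_mono (by
            intro y hy; simp only [Finset.coe_insert]; exact Set.mem_insert_of_mem _ hy) hf2⟩

theorem exists_factor {A : Type} [CommRing A] [IsDomain A] (L : Type) [AddCommGroup L]
    [Module A L] [Module.Finite A L] (_hL : ∀ (f : A) (u : L), f • u = 0 → f = 0 ∨ u = 0) :
    ∃ (f : A) (k : ℕ) (φ : L →ₗ[A] (Fin k → A)) (μ : (Fin k → A) →ₗ[A] L), f ≠ 0 ∧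
      ∀ u, μ (φ u) = f • u := by
  classical
  obtain ⟨s, hs⟩ := (Module.Finite.fg_top : (⊤ : Submodule A L).FG)
  obtain ⟨t, ht, hst⟩ := k7_step (A := A) s
  -- a common denominator
  have hc : ∃ f : A, f ≠ 0 ∧ ∀ x ∈ s, f • x ∈ Submodule.span A (t : Set L) := by
    choose! F hF using hst
    refine ⟨∏ x ∈ s, F x, Finset.prod_ne_zero_iff.2 fun x hx => (hF x hx).1, fun x hx => ?_⟩
    rw [← Finset.prod_erase_mul s F hx, mul_smul]
    exact Submodule.smul_mem _ _ (hF x hx).2
  obtain ⟨f, hf, hfs⟩ := hc
  have hall : ∀ u : L, f • u ∈ Submodule.span A (t : Set L) := by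
    intro u
    have hu : u ∈ Submodule.span A (s : Set L) := by rw [hs]; exact Submodule.mem_top
    induction hu using Submodule.span_induction with
    | mem x hx => exact hfs x hx
    | zero => rw [smul_zero]; exact Submodule.zero_mem _
    | add x y _ _ hx hy => rw [smul_add]; exact Submodule.add_mem _ hx hy
    | smul a x _ hx => rw [smul_comm]; exact Submodule.smul_mem _ _ hx
  have hr : Submodule.span A (Set.range (fun x : t => (x : L))) = Submodule.span A (t : Set L) := by
    congr 1
    ext x
    simp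
  let e : t ≃ Fin t.card := t.equivFin
  let ψ : L →ₗ[A] Submodule.span A (Set.range (fun x : t => (x : L))) :=
    { toFun := fun u => ⟨f • u, by rw [hr]; exact hall u⟩
      map_add' := fun u v => by ext; simp
      map_smul' := fun a u => by
        ext
        exact smul_comm f a u }
  let φ : L →ₗ[A] (Fin t.card → A) :=
    (LinearMap.funLeft A A e.symm) ∘ₗ (Finsupp.lcoeFun) ∘ₗ ht.repr ∘ₗ ψ
  let μ : (Fin t.card → A) →ₗ[A] L := Fintype.linearCombination A (fun i => ((e.symm i : t) : L))
  refine ⟨f, t.card, φ, μ, hf, fun u => ?_⟩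
  have h1 : Finsupp.linearCombination A (fun x : t => (x : L)) (ht.repr (ψ u)) = f • u :=
    ht.linearCombination_repr (ψ u)
  rw [← h1]
  change ∑ i, (φ u i) • ((e.symm i : t) : L) = _
  rw [Finsupp.linearCombination_apply,
    Finsupp.sum_fintype (ht.repr (ψ u)) (fun (i : t) (a : A) => a • (i : L))
      (fun i => zero_smul A (i : L))]
  rw [← e.symm.sum_comp (fun i : t => (ht.repr (ψ u)) i • (i : L))]
  rfl

end Pool.Agent.Stf
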