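import Pool.Agent.Fml.Defs

/-!
# The division theorem for formal symbols, and noetherianity (block D of P11)
-/

set_option autoImplicit false

namespace Pool.Agent.Stf

open Pool.Fml (Ser SymRing formal IsFormal)

open Finset.HasAntidiagonal (antidiagonal mem_antidiagonal)

open MvPowerSeries

variable {d : ℕ}

/-- exponents of monomials in `x_1, …, x_d, s` -/
abbrev Ex (d : ℕ) : Type := Option (Fin d) →₀ ℕ

/-- the weight of the `x`-part -/
noncomputable def lv (lam : Fin d → ℝ) (m : Ex d) : ℝ := ∑ i, lam i * m (some i)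

/-- positive weights with different values on different monomials -/
structure Wt (lam : Fin d → ℝ) : Prop where
  pos : ∀ i, 0 < lam i
  inj : ∀ m m' : Ex d, m none = m' none → lv lam m = lv lam m' → m = m'

private lemma g1_tr : ∃ t : ℝ, 0 < t ∧ Transcendental ℤ t := by
  refine ⟨liouvilleNumber 2, ?_, transcendental_liouvilleNumber (m := 2) le_rfl⟩
  have h0 : 0 ≤ liouvilleNumber 2 := tsum_nonneg fun i => by positivity
  refine lt_of_le_of_ne h0 fun h => ?_
  have h2 := transcendental_liouvilleNumber (m := 2) le_rfl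
  apply h2
  have h3 : liouvilleNumber ((2 : ℕ) : ℝ) = 0 := h.symm
  rw [h3]
  exact isAlgebraic_zero

theorem exists_wt (d : ℕ) : ∃ lam : Fin d → ℝ, Wt lam := by
  obtain ⟨t, ht, htr⟩ := g1_tr
  refine ⟨fun i => t ^ (i : ℕ), fun i => by positivity, ?_⟩
  intro m m' h0 h
  have hP : (∑ i : Fin d, Polynomial.C ((m (some i) : ℤ) - m' (some i)) *
      (Polynomial.X : Polynomial ℤ) ^ (i : ℕ)) = 0 := by
    by_contra hne
    have h2 := transcendental_iff.1 htr _ (by
      show Polynomial.aeval t (∑ i : Fin d, Polynomial.C ((m (some i) : ℤ) - m' (some i)) *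
        (Polynomial.X : Polynomial ℤ) ^ (i : ℕ)) = 0
      simp only [lv] at h
      simp only [map_sum, map_mul, map_pow, Polynomial.aeval_X, Polynomial.aeval_C,
        map_sub]
      rw [← sub_eq_zero, ← Finset.sum_sub_distrib] at h
      rw [← h]
      apply Finset.sum_congr rfl
      intro i _
      simp
      ring)
    exact hne h2
  ext o
  cases o with
  | none => exact h0
  | some i =>
    have h3 := congrArg (fun p => Polynomial.coeff p (i : ℕ)) hP
    simp only [Polynomial.finsetSum_coeff, Polynomial.coeff_C_mul_X_pow,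
      Polynomial.coeff_zero] at h3
    rw [Finset.sum_eq_single i] at h3
    · simp at h3
      omega
    · intro j _ hj
      rw [if_neg]
      intro h4
      exact hj (Fin.ext h4.symm)
    · intro h5
      exact absurd (Finset.mem_univ i) h5

/-- the order of the exponents: first the exponent of `s`, then the weight of the `x`-part -/
def Bef (lam : Fin d → ℝ) (m m' : Ex d) : Prop :=
  m none < m' none ∨ (m none = m' none ∧ lv lam m < lv lam m')

section order

variable {lam : Fin d → ℝ}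

/-- MODULE g2 -/
lemma lv_add (m m' : Ex d) : lv lam (m + m') = lv lam m + lv lam m' := by
  simp only [lv, Finsupp.add_apply, Nat.cast_add, mul_add, Finset.sum_add_distrib]

lemma Bef.add {m m' : Ex d} (h : Bef lam m m') (a : Ex d) : Bef lam (a + m) (a + m') := by
  rcases h with h | ⟨h, h'⟩
  · left
    rw [Finsupp.add_apply, Finsupp.add_apply]
    omega
  · right
    refine ⟨by rw [Finsupp.add_apply, Finsupp.add_apply, h], ?_⟩
    rw [lv_add, lv_add]
    linarith

lemma Bef.irrefl (m : Ex d) : ¬ Bef lam m m := by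
  rintro (h | ⟨_, h⟩)
  · exact lt_irrefl _ h
  · exact lt_irrefl _ h

lemma Bef.trans {m m' m'' : Ex d} (h : Bef lam m m') (h' : Bef lam m' m'') :
    Bef lam m m'' := by
  rcases h with h | ⟨h, h1⟩
  · rcases h' with h' | ⟨h', _⟩
    · exact Or.inl (h.trans h')
    · exact Or.inl (h'.symm ▸ h)
  · rcases h' with h' | ⟨h', h1'⟩
    · exact Or.inl (h ▸ h')
    · exact Or.inr ⟨h.trans h', h1.trans h1'⟩

lemma Wt.total (hw : Wt lam) (m m' : Ex d) : m = m' ∨ Bef lam m m' ∨ Bef lam m' m := by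
  rcases lt_trichotomy (m none) (m' none) with h | h | h
  · exact Or.inr (Or.inl (Or.inl h))
  · rcases lt_trichotomy (lv lam m) (lv lam m') with h' | h' | h'
    · exact Or.inr (Or.inl (Or.inr ⟨h, h'⟩))
    · exact Or.inl (hw.inj m m' h h')
    · exact Or.inr (Or.inr (Or.inr ⟨h.symm, h'⟩))
  · exact Or.inr (Or.inr (Or.inl h))

/-- finitely many monomials with given exponent of `s` and bounded weight -/
lemma Wt.finite (hw : Wt lam) (j : ℕ) (c : ℝ) :
    {m : Ex d | m none = j ∧ lv lam m ≤ c}.Finite := by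
  let N : Ex d := Finsupp.equivFunOnFinite.symm
    fun o => Option.casesOn o j fun i => ⌊c / lam i⌋₊
  refine (Set.finite_Iic N).subset fun m hm => ?_
  rw [Set.mem_Iic]
  intro o
  rcases o with _ | i
  · exact hm.1.le
  · change m (some i) ≤ ⌊c / lam i⌋₊
    refine Nat.le_floor ?_
    rw [le_div_iff₀ (hw.pos i), mul_comm]
    refine le_trans ?_ hm.2
    exact Finset.single_le_sum (f := fun i => lam i * (m (some i) : ℝ))
      (fun i _ => mul_nonneg (hw.pos i).le (Nat.cast_nonneg _)) (Finset.mem_univ i)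

/-- the first element of a nonempty set of exponents -/
lemma Wt.exists_first (hw : Wt lam) (S : Set (Ex d)) (hS : S.Nonempty) :
    ∃ e ∈ S, ∀ m ∈ S, m ≠ e → Bef lam e m := by
  classical
  have hex : ∃ j : ℕ, ∃ m ∈ S, m none = j := by
    obtain ⟨m, hm⟩ := hS
    exact ⟨_, m, hm, rfl⟩
  obtain ⟨m1, hm1, hj⟩ := Nat.find_spec hex
  have hmin : ∀ m ∈ S, Nat.find hex ≤ m none := fun m hm => Nat.find_min' hex ⟨m, hm, rfl⟩
  set j := Nat.find hex with hjdef
  have hfin : (S ∩ {m : Ex d | m none = j ∧ lv lam m ≤ lv lam m1}).Finite :=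
    (hw.finite j (lv lam m1)).inter_of_right S
  obtain ⟨e, he, hemin⟩ := Set.exists_min_image _ (fun m => lv lam m) hfin
    ⟨m1, hm1, hj, le_rfl⟩
  refine ⟨e, he.1, fun m hm hne => ?_⟩
  rcases (hmin m hm).lt_or_eq with h | h
  · left
    rw [he.2.1]
    exact h
  · right
    refine ⟨he.2.1.trans h, ?_⟩
    have hle : lv lam e ≤ lv lam m := by
      rcases le_or_gt (lv lam m) (lv lam m1) with h' | h'
      · exact hemin m ⟨hm, h.symm, h'⟩
      · exact he.2.2.trans h'.le
    rcases hle.lt_or_eq with h' | h'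
    · exact h'
    · exact absurd (hw.inj m e (h.symm.trans he.2.1.symm) h'.symm) hne

end order

/-- `e` is the leading exponent of `f`, with coefficient `1` -/
structure Lead (lam : Fin d → ℝ) (f : Ser d) (e : Ex d) : Prop where
  one : coeff e f = 1
  min : ∀ m, coeff m f ≠ 0 → m ≠ e → Bef lam e m

/-! ## g3: weights -/

/-- MODULE g3a. Put `om (n+1) = r_n om n`, `r_n = min r_(n-1) c_(n+1) (1/2)` (or `Pool.Fml.exists_tau`).
It is used as `om (m + m') ≤ om (m + a) om (m' - a)` for `m' ≥ a`. -/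
theorem exists_om (c : ℕ → ℝ) (hc : ∀ l, 0 < c l) :
    ∃ om : ℕ → ℝ, om 0 = 1 ∧ (∀ l, 0 < om l) ∧ (∀ l, om (l + 1) ≤ c (l + 1)) ∧
      ∀ a l, om (a + l) ≤ om a * om l := by
  obtain ⟨τ, h0, h1, h2, h3⟩ := Pool.Fml.exists_tau (fun l => (c l)⁻¹)
    (fun l => (inv_pos.2 (hc l)).le)
  refine ⟨τ, h0, h1, fun l => ?_, h2⟩
  have h4 : (c (l + 1))⁻¹ * τ (l + 1) ≤ 1 :=
    (h3 l).trans (pow_le_one₀ (by norm_num) (by norm_num))
  rwa [inv_mul_le_iff₀ (hc _), mul_one] at h4

/-- the weight of a monomial -/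
noncomputable def wt (lam : Fin d → ℝ) (ρ : ℝ) (om : ℕ → ℝ) (m : Ex d) : ℝ :=
  ρ ^ lv lam m * om (m none)

private lemma g3b_lv_nonneg {lam : Fin d → ℝ} (hw : Wt lam) (m : Ex d) : 0 ≤ lv lam m :=
  Finset.sum_nonneg fun i _ => mul_nonneg (hw.pos i).le (Nat.cast_nonneg _)

/-- a small radius -/
private lemma g3b_rad {lam : Fin d → ℝ} (hw : Wt lam) {R : ℝ} (hR : 0 < R) :
    ∃ ρ : ℝ, 0 < ρ ∧ ρ < 1 ∧ ∀ i, R * ρ ^ lam i ≤ 1 / 2 := by
  have h1 : ∀ i, ∀ᶠ ρ in nhdsWithin (0 : ℝ) (Set.Ioi 0), R * ρ ^ lam i ≤ 1 / 2 := by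
    intro i
    have h2 : Filter.Tendsto (fun ρ : ℝ => R * ρ ^ lam i) (nhdsWithin (0 : ℝ) (Set.Ioi 0))
        (nhds (R * 0)) := by
      refine Filter.Tendsto.const_mul R ?_
      have h3 : Filter.Tendsto (fun ρ : ℝ => ρ ^ lam i) (nhds (0 : ℝ)) (nhds ((0 : ℝ) ^ lam i)) :=
        (Real.continuousAt_rpow_const 0 (lam i) (Or.inr (hw.pos i).le)).tendsto
      rw [Real.zero_rpow (hw.pos i).ne'] at h3
      exact h3.mono_left nhdsWithin_le_nhds
    rw [mul_zero] at h2
    exact h2.eventually (Iic_mem_nhds (by norm_num))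
  have h4 : ∀ᶠ ρ in nhdsWithin (0 : ℝ) (Set.Ioi 0), ∀ i, R * ρ ^ lam i ≤ 1 / 2 :=
    Filter.eventually_all.2 h1
  have h5 : ∀ᶠ ρ in nhdsWithin (0 : ℝ) (Set.Ioi 0), ρ < 1 :=
    nhdsWithin_le_nhds (Iio_mem_nhds one_pos)
  have h6 : ∀ᶠ ρ in nhdsWithin (0 : ℝ) (Set.Ioi 0), 0 < ρ := self_mem_nhdsWithin
  obtain ⟨ρ, h⟩ := (h4.and (h5.and h6)).exists
  exact ⟨ρ, h.2.2, h.2.1, h.1⟩

private lemma g3b_deg (m : Ex d) : m.degree = m none + ∑ i : Fin d, m (some i) := by
  rw [Finsupp.degree_eq_sum, Fintype.sum_option]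

private lemma g3b_rpow_lv {lam : Fin d → ℝ} {ρ : ℝ} (h0 : 0 < ρ) (m : Ex d) :
    ρ ^ lv lam m = ∏ i, (ρ ^ lam i) ^ m (some i) := by
  rw [lv, Real.rpow_sum_of_pos h0]
  refine Finset.prod_congr rfl fun i _ => ?_
  rw [Real.rpow_mul h0.le, Real.rpow_natCast]

/-- domination at a small radius -/
private lemma g3b_dom {lam : Fin d → ℝ} {R ρ : ℝ} (_hR : 0 < R) (h0 : 0 < ρ)
    (h : ∀ i, R * ρ ^ lam i ≤ 1 / 2) (m : Ex d) :
    R ^ m.degree * ρ ^ lv lam m ≤ (2 * R) ^ m none * (1 / 2) ^ m.degree := by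
  rw [g3b_rpow_lv h0, g3b_deg, pow_add, pow_add, ← Finset.prod_pow_eq_pow_sum,
    ← Finset.prod_pow_eq_pow_sum, mul_assoc, ← Finset.prod_mul_distrib]
  have h1 : ∏ i, (R ^ m (some i) * (ρ ^ lam i) ^ m (some i)) ≤ ∏ i : Fin d, (1 / 2 : ℝ) ^ m (some i) := by
    refine Finset.prod_le_prod (fun i _ => by positivity) fun i _ => ?_
    rw [← mul_pow]
    exact pow_le_pow_left₀ (by positivity) (h i) _
  calc R ^ m none * ∏ i, (R ^ m (some i) * (ρ ^ lam i) ^ m (some i))
      ≤ R ^ m none * ∏ i : Fin d, (1 / 2 : ℝ) ^ m (some i) :=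
        mul_le_mul_of_nonneg_left h1 (by positivity)
    _ = (2 * R) ^ m none * ((1 / 2) ^ m none * ∏ i : Fin d, (1 / 2 : ℝ) ^ m (some i)) := by
        rw [← mul_assoc, ← mul_pow]
        congr 2
        ring

/-- MODULE g3b. Choice of the weights for finitely many formal symbols `f_i` with leading
exponents `e_i`. First `ρ` small, so that the terms of `f_i` with the same power of `s` as `e_i`
contribute at most `1/4`; then `om` small: with `S_l` = sum of the terms of the `f_i` with
`m none = e_i none + l`, `G_l` the same for `g`, use `exists_om` with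
`c_l = (1/4) 2^(-l) / (1 + S_l + G_l)`. -/
theorem exists_weights {lam : Fin d → ℝ} (hw : Wt lam) {k : ℕ} (f : Fin k → Ser d)
    (hf : ∀ i, IsFormal (f i)) (e : Fin k → Ex d) (he : ∀ i, Lead lam (f i) (e i)) (g : Ser d)
    (hg : IsFormal g) :
    ∃ (ρ : ℝ) (om : ℕ → ℝ), 0 < ρ ∧ ρ < 1 ∧ (∀ l, 0 < om l) ∧
      (Summable fun m => ‖coeff m g‖ * wt lam ρ om m) ∧
      ∀ i (m : Ex d), (Summable fun m' => ‖coeff m' (f i)‖ * wt lam ρ om (m + m')) ∧
        ∑' m', (if m' = e i then 0 else ‖coeff m' (f i)‖ * wt lam ρ om (m + m')) ≤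
          1 / 2 * wt lam ρ om (m + e i) := by
  classical
  -- a common bound
  set F : Ex d → ℝ := fun m => ‖coeff m g‖ + ∑ i, ‖coeff m (f i)‖ with hF
  have hgF : ∀ m, ‖coeff m g‖ ≤ F m := fun m =>
    le_add_of_nonneg_right (Finset.sum_nonneg fun i _ => norm_nonneg _)
  have hfF : ∀ i m, ‖coeff m (f i)‖ ≤ F m := fun i m =>
    (Finset.single_le_sum (f := fun i => ‖coeff m (f i)‖) (fun _ _ => norm_nonneg _)
      (Finset.mem_univ i)).trans (le_add_of_nonneg_left (norm_nonneg _))
  have hT : Pool.Fml.Tame F := Pool.Fml.Tame.add hg (Pool.Fml.Tame.sum Finset.univ fun i _ => hf i)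
  obtain ⟨R, hR, C, hC⟩ := hT.exists_C
  obtain ⟨ρ₀, hρ0, hρ1, hρR⟩ := g3b_rad hw hR
  set U : ℕ → ℝ := fun j => |C j| * (2 * R) ^ j with hU
  have hU0 : ∀ j, 0 ≤ U j := fun j => by positivity
  have hFU : ∀ m, F m * ρ₀ ^ lv lam m ≤ U (m none) * (1 / 2) ^ m.degree := by
    intro m
    have h1 := g3b_dom hR hρ0 hρR m
    have hp : 0 < ρ₀ ^ lv lam m := Real.rpow_pos_of_pos hρ0 _
    calc F m * ρ₀ ^ lv lam m ≤ (|C (m none)| * R ^ m.degree) * ρ₀ ^ lv lam m :=
          mul_le_mul_of_nonneg_right ((hC m).trans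
            (mul_le_mul_of_nonneg_right (le_abs_self _) (by positivity))) hp.le
      _ = |C (m none)| * (R ^ m.degree * ρ₀ ^ lv lam m) := by ring
      _ ≤ |C (m none)| * ((2 * R) ^ m none * (1 / 2) ^ m.degree) :=
          mul_le_mul_of_nonneg_left h1 (abs_nonneg _)
      _ = _ := by rw [hU]; ring
  have hdeg : Summable fun m : Ex d => (1 / 2 : ℝ) ^ m.degree :=
    Pool.Fml.summable_deg (1 / 2) (by norm_num) (by norm_num)
  -- the small radius
  set A : Fin k → ℝ → Ex d → ℝ := fun i ρ m =>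
    if m none = e i none ∧ m ≠ e i then ‖coeff m (f i)‖ * ρ ^ (lv lam m - lv lam (e i)) else 0
    with hA
  have hA0 : ∀ i ρ m, 0 < ρ → 0 ≤ A i ρ m := by
    intro i ρ m h
    simp only [hA]
    split_ifs
    · exact mul_nonneg (norm_nonneg _) (Real.rpow_pos_of_pos h _).le
    · exact le_rfl
  have hlt : ∀ i m, m none = e i none → m ≠ e i → coeff m (f i) ≠ 0 →
      lv lam (e i) < lv lam m := by
    intro i m h1 h2 h3
    rcases (he i).min m h3 h2 with h | h
    · omega
    · exact h.2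
  have hAb : ∀ i ρ m, 0 < ρ → ρ ≤ ρ₀ →
      A i ρ m ≤ ρ₀ ^ (-lv lam (e i)) * U (e i none) * (1 / 2) ^ m.degree := by
    intro i ρ m h1 h2
    have hp : 0 < ρ₀ ^ (-lv lam (e i)) := Real.rpow_pos_of_pos hρ0 _
    have hnn : 0 ≤ ρ₀ ^ (-lv lam (e i)) * U (e i none) * (1 / 2) ^ m.degree :=
      mul_nonneg (mul_nonneg hp.le (hU0 _)) (by positivity)
    simp only [hA]
    split_ifs with h
    · by_cases hz : coeff m (f i) = 0
      · rw [hz, norm_zero, zero_mul]
        exact hnn
      · have h3 := hlt i m h.1 h.2 hz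
        have h4 : ρ ^ (lv lam m - lv lam (e i)) ≤ ρ₀ ^ (lv lam m - lv lam (e i)) :=
          Real.rpow_le_rpow h1.le h2 (by linarith)
        calc ‖coeff m (f i)‖ * ρ ^ (lv lam m - lv lam (e i))
            ≤ F m * ρ₀ ^ (lv lam m - lv lam (e i)) :=
              mul_le_mul (hfF i m) h4 (Real.rpow_pos_of_pos h1 _).le
                ((norm_nonneg _).trans (hfF i m))
          _ = ρ₀ ^ (-lv lam (e i)) * (F m * ρ₀ ^ lv lam m) := by
              rw [sub_eq_add_neg, Real.rpow_add hρ0]
              ring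
          _ ≤ ρ₀ ^ (-lv lam (e i)) * (U (m none) * (1 / 2) ^ m.degree) :=
              mul_le_mul_of_nonneg_left (hFU m) hp.le
          _ = _ := by rw [h.1]; ring
    · exact hnn
  have hAs : ∀ i ρ, 0 < ρ → ρ ≤ ρ₀ → Summable (A i ρ) := fun i ρ h1 h2 =>
    Summable.of_nonneg_of_le (fun m => hA0 i ρ m h1) (fun m => hAb i ρ m h1 h2)
      (hdeg.mul_left _)
  have hAt : ∀ i, ∀ᶠ ρ in nhdsWithin (0 : ℝ) (Set.Ioi 0), ∑' m, A i ρ m ≤ 1 / 4 := by
    intro i
    have h1 : Filter.Tendsto (fun ρ => ∑' m, A i ρ m) (nhdsWithin (0 : ℝ) (Set.Ioi 0))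
        (nhds (∑' _ : Ex d, (0 : ℝ))) := by
      refine tendsto_tsum_of_dominated_convergence
        (bound := fun m => ρ₀ ^ (-lv lam (e i)) * U (e i none) * (1 / 2) ^ m.degree)
        (hdeg.mul_left _) (fun m => ?_) ?_
      · simp only [hA]
        split_ifs with h
        · by_cases hz : coeff m (f i) = 0
          · simp only [hz, norm_zero, zero_mul]
            exact tendsto_const_nhds
          · have h3 := hlt i m h.1 h.2 hz
            have h4 : Filter.Tendsto (fun ρ : ℝ => ρ ^ (lv lam m - lv lam (e i))) (nhds (0 : ℝ))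
                (nhds ((0 : ℝ) ^ (lv lam m - lv lam (e i)))) :=
              (Real.continuousAt_rpow_const 0 _ (Or.inr (by linarith))).tendsto
            rw [Real.zero_rpow (by linarith)] at h4
            have h5 := (h4.mono_left (nhdsWithin_le_nhds (s := Set.Ioi 0))).const_mul
              ‖coeff m (f i)‖
            rw [mul_zero] at h5
            exact h5
        · exact tendsto_const_nhds
      · have h5 : ∀ᶠ ρ in nhdsWithin (0 : ℝ) (Set.Ioi 0), ρ < ρ₀ :=
          nhdsWithin_le_nhds (Iio_mem_nhds hρ0)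
        have h6 : ∀ᶠ ρ in nhdsWithin (0 : ℝ) (Set.Ioi 0), 0 < ρ := self_mem_nhdsWithin
        filter_upwards [h5, h6] with ρ h7 h8 m
        rw [Real.norm_of_nonneg (hA0 i ρ m h8)]
        exact hAb i ρ m h8 h7.le
    rw [tsum_zero] at h1
    exact h1.eventually (Iic_mem_nhds (by norm_num))
  obtain ⟨ρ, hρ, hρle, hρA⟩ : ∃ ρ : ℝ, 0 < ρ ∧ ρ ≤ ρ₀ ∧ ∀ i, ∑' m, A i ρ m ≤ 1 / 4 := by
    have h5 : ∀ᶠ ρ in nhdsWithin (0 : ℝ) (Set.Ioi 0), ρ < ρ₀ :=
      nhdsWithin_le_nhds (Iio_mem_nhds hρ0)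
    have h6 : ∀ᶠ ρ in nhdsWithin (0 : ℝ) (Set.Ioi 0), 0 < ρ := self_mem_nhdsWithin
    obtain ⟨ρ, h⟩ := ((Filter.eventually_all.2 hAt).and (h5.and h6)).exists
    exact ⟨ρ, h.2.2, h.2.1.le, h.1⟩
  have hFρ : ∀ m, F m * ρ ^ lv lam m ≤ U (m none) * (1 / 2) ^ m.degree := fun m =>
    (mul_le_mul_of_nonneg_left (Real.rpow_le_rpow hρ.le hρle (g3b_lv_nonneg hw m))
      ((norm_nonneg _).trans (hgF m))).trans (hFU m)
  -- the weights of the powers of `s`
  set W : ℝ := ∑' m : Ex d, (1 / 2 : ℝ) ^ m.degree with hW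
  have hW0 : 0 ≤ W := tsum_nonneg fun m => by positivity
  set ε : ℝ := 1 / (4 * (1 + W)) with hε
  have hε0 : 0 < ε := by positivity
  have hεW : ε * W ≤ 1 / 4 := by
    rw [hε, div_mul_eq_mul_div, one_mul, div_le_iff₀ (by positivity)]
    linarith
  set E : ℝ := ∑ i, ρ ^ (-lv lam (e i)) with hE
  have hE0 : 0 ≤ E := Finset.sum_nonneg fun i _ => (Real.rpow_pos_of_pos hρ _).le
  have hEi : ∀ i, ρ ^ (-lv lam (e i)) ≤ E := fun i =>
    Finset.single_le_sum (f := fun i => ρ ^ (-lv lam (e i)))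
      (fun _ _ => (Real.rpow_pos_of_pos hρ _).le) (Finset.mem_univ i)
  set V : ℕ → ℝ := fun l => U l + ∑ i, U (e i none + l) with hV
  have hV0 : ∀ l, 0 ≤ V l := fun l =>
    add_nonneg (hU0 _) (Finset.sum_nonneg fun i _ => hU0 _)
  have hVU : ∀ l, U l ≤ V l := fun l =>
    le_add_of_nonneg_right (Finset.sum_nonneg fun i _ => hU0 _)
  have hVi : ∀ i l, U (e i none + l) ≤ V l := fun i l =>
    (Finset.single_le_sum (f := fun i => U (e i none + l)) (fun _ _ => hU0 _)
      (Finset.mem_univ i)).trans (le_add_of_nonneg_left (hU0 _))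
  have hden : ∀ l, 0 < 1 + (1 + E) * V l := fun l => by
    have := mul_nonneg (by linarith : (0 : ℝ) ≤ 1 + E) (hV0 l)
    linarith
  obtain ⟨om, ho0, ho1, ho2, ho3⟩ := exists_om (fun l => ε / (1 + (1 + E) * V l))
    (fun l => div_pos hε0 (hden l))
  have hoV : ∀ l, (1 + E) * V (l + 1) * om (l + 1) ≤ ε := by
    intro l
    have h1 := ho2 l
    rw [le_div_iff₀ (hden _)] at h1
    have h2 : 0 ≤ om (l + 1) := (ho1 _).le
    linarith
  have hwt : ∀ m, 0 < wt lam ρ om m := fun m => mul_pos (Real.rpow_pos_of_pos hρ _) (ho1 _)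
  refine ⟨ρ, om, hρ, hρle.trans_lt hρ1, ho1, ?_, fun i m => ?_⟩
  · -- the summability for `g`
    refine Summable.of_nonneg_of_le (fun m => mul_nonneg (norm_nonneg _) (hwt m).le)
      (fun m => ?_) (hdeg.mul_left (U 0 + ε))
    have h1 : ‖coeff m g‖ * ρ ^ lv lam m ≤ U (m none) * (1 / 2) ^ m.degree :=
      (mul_le_mul_of_nonneg_right (hgF m) (Real.rpow_pos_of_pos hρ _).le).trans (hFρ m)
    have h2 : U (m none) * om (m none) ≤ U 0 + ε := by
      rcases Nat.eq_zero_or_pos (m none) with h | h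
      · rw [h, ho0]
        linarith
      · obtain ⟨l, hl⟩ : ∃ l, m none = l + 1 := ⟨m none - 1, by omega⟩
        rw [hl]
        have h3 := hoV l
        have h4 : U (l + 1) * om (l + 1) ≤ (1 + E) * V (l + 1) * om (l + 1) := by
          refine mul_le_mul_of_nonneg_right ?_ (ho1 _).le
          have := mul_nonneg hE0 (hV0 (l + 1))
          have := hVU (l + 1)
          linarith
        have := hU0 0
        linarith
    calc ‖coeff m g‖ * wt lam ρ om m = ‖coeff m g‖ * ρ ^ lv lam m * om (m none) := by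
          rw [wt]; ring
      _ ≤ U (m none) * (1 / 2) ^ m.degree * om (m none) :=
          mul_le_mul_of_nonneg_right h1 (ho1 _).le
      _ = U (m none) * om (m none) * (1 / 2) ^ m.degree := by ring
      _ ≤ (U 0 + ε) * (1 / 2) ^ m.degree :=
          mul_le_mul_of_nonneg_right h2 (by positivity)
  · -- the key estimate
    have key : ∀ m', m' ≠ e i → ‖coeff m' (f i)‖ * wt lam ρ om (m + m') ≤
        wt lam ρ om (m + e i) * (A i ρ m' + ε * (1 / 2) ^ m'.degree) := by
      intro m' hne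
      have hpos2 : 0 ≤ ε * (1 / 2 : ℝ) ^ m'.degree := by positivity
      have hrhs : 0 ≤ wt lam ρ om (m + e i) * (A i ρ m' + ε * (1 / 2) ^ m'.degree) :=
        mul_nonneg (hwt _).le (add_nonneg (hA0 i ρ m' hρ) hpos2)
      by_cases hz : coeff m' (f i) = 0
      · rw [hz, norm_zero, zero_mul]
        exact hrhs
      have hsplit : ρ ^ lv lam (m + m') =
          ρ ^ lv lam (m + e i) * ρ ^ (lv lam m' - lv lam (e i)) := by
        rw [← Real.rpow_add hρ, lv_add, lv_add]
        congr 1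
        ring
      rcases (he i).min m' hz hne with h | ⟨h, h'⟩
      · obtain ⟨l, hl⟩ : ∃ l, m' none = e i none + (l + 1) := ⟨m' none - e i none - 1, by omega⟩
        have h1 : om ((m + m') none) ≤ om ((m + e i) none) * om (l + 1) := by
          have := ho3 (m none + e i none) (l + 1)
          rw [Finsupp.add_apply, Finsupp.add_apply, hl, ← add_assoc]
          exact this
        have h2 : ‖coeff m' (f i)‖ * ρ ^ (lv lam m' - lv lam (e i)) * om (l + 1) ≤
            ε * (1 / 2) ^ m'.degree := by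
          have h3 : ‖coeff m' (f i)‖ * ρ ^ (lv lam m' - lv lam (e i)) ≤
              E * (V (l + 1) * (1 / 2) ^ m'.degree) := by
            calc ‖coeff m' (f i)‖ * ρ ^ (lv lam m' - lv lam (e i))
                = ρ ^ (-lv lam (e i)) * (‖coeff m' (f i)‖ * ρ ^ lv lam m') := by
                  rw [sub_eq_add_neg, Real.rpow_add hρ]
                  ring
              _ ≤ E * (V (l + 1) * (1 / 2) ^ m'.degree) := by
                  refine mul_le_mul (hEi i) ?_ (mul_nonneg (norm_nonneg _)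
                    (Real.rpow_pos_of_pos hρ _).le) hE0
                  refine (mul_le_mul_of_nonneg_right (hfF i m')
                    (Real.rpow_pos_of_pos hρ _).le).trans ((hFρ m').trans ?_)
                  refine mul_le_mul_of_nonneg_right ?_ (by positivity)
                  rw [hl]
                  exact hVi i (l + 1)
          have h4 : E * V (l + 1) * om (l + 1) ≤ ε := by
            refine le_trans ?_ (hoV l)
            refine mul_le_mul_of_nonneg_right ?_ (ho1 _).le
            have := hV0 (l + 1)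
            linarith
          calc ‖coeff m' (f i)‖ * ρ ^ (lv lam m' - lv lam (e i)) * om (l + 1)
              ≤ E * (V (l + 1) * (1 / 2) ^ m'.degree) * om (l + 1) :=
                mul_le_mul_of_nonneg_right h3 (ho1 _).le
            _ = E * V (l + 1) * om (l + 1) * (1 / 2) ^ m'.degree := by ring
            _ ≤ ε * (1 / 2) ^ m'.degree := mul_le_mul_of_nonneg_right h4 (by positivity)
        have hn1 : 0 ≤ ‖coeff m' (f i)‖ := norm_nonneg _
        have hn2 : 0 < ρ ^ lv lam (m + e i) := Real.rpow_pos_of_pos hρ _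
        have hn3 : 0 < ρ ^ (lv lam m' - lv lam (e i)) := Real.rpow_pos_of_pos hρ _
        have hn4 : 0 < om ((m + e i) none) := ho1 _
        calc ‖coeff m' (f i)‖ * wt lam ρ om (m + m')
            = ‖coeff m' (f i)‖ * (ρ ^ lv lam (m + e i) * ρ ^ (lv lam m' - lv lam (e i))) *
                om ((m + m') none) := by
              rw [wt, hsplit]; ring
          _ ≤ ‖coeff m' (f i)‖ * (ρ ^ lv lam (m + e i) * ρ ^ (lv lam m' - lv lam (e i))) *
                (om ((m + e i) none) * om (l + 1)) :=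
              mul_le_mul_of_nonneg_left h1 (by positivity)
          _ = wt lam ρ om (m + e i) *
                (‖coeff m' (f i)‖ * ρ ^ (lv lam m' - lv lam (e i)) * om (l + 1)) := by
              rw [wt]; ring
          _ ≤ wt lam ρ om (m + e i) * (A i ρ m' + ε * (1 / 2) ^ m'.degree) := by
              refine mul_le_mul_of_nonneg_left ?_ (hwt _).le
              have := hA0 i ρ m' hρ
              linarith
      · have h1 : A i ρ m' = ‖coeff m' (f i)‖ * ρ ^ (lv lam m' - lv lam (e i)) := by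
          simp only [hA]
          rw [if_pos ⟨h.symm, hne⟩]
        have h2 : (m + m') none = (m + e i) none := by
          rw [Finsupp.add_apply, Finsupp.add_apply, h]
        calc ‖coeff m' (f i)‖ * wt lam ρ om (m + m')
            = wt lam ρ om (m + e i) * A i ρ m' := by
              rw [h1, wt, hsplit, h2, wt]; ring
          _ ≤ wt lam ρ om (m + e i) * (A i ρ m' + ε * (1 / 2) ^ m'.degree) := by
              refine mul_le_mul_of_nonneg_left ?_ (hwt _).le
              linarith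
    have hsum : Summable fun m' => wt lam ρ om (m + e i) * (A i ρ m' + ε * (1 / 2) ^ m'.degree) :=
      ((hAs i ρ hρ hρle).add (hdeg.mul_left ε)).mul_left _
    have hs0 : ∀ m', 0 ≤ (if m' = e i then 0 else ‖coeff m' (f i)‖ * wt lam ρ om (m + m')) := by
      intro m'
      split_ifs
      · exact le_rfl
      · exact mul_nonneg (norm_nonneg _) (hwt _).le
    have hs1 : ∀ m', (if m' = e i then 0 else ‖coeff m' (f i)‖ * wt lam ρ om (m + m')) ≤
        wt lam ρ om (m + e i) * (A i ρ m' + ε * (1 / 2) ^ m'.degree) := by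
      intro m'
      split_ifs with h
      · have hpos2 : 0 ≤ ε * (1 / 2 : ℝ) ^ m'.degree := by positivity
        exact mul_nonneg (hwt _).le (add_nonneg (hA0 i ρ m' hρ) hpos2)
      · exact key m' h
    have hs2 : Summable fun m' =>
        (if m' = e i then 0 else ‖coeff m' (f i)‖ * wt lam ρ om (m + m')) :=
      Summable.of_nonneg_of_le hs0 hs1 hsum
    refine ⟨?_, ?_⟩
    · have h1 : Summable fun m' : Ex d =>
          (if m' = e i then ‖coeff m' (f i)‖ * wt lam ρ om (m + m') else 0) := by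
        refine summable_of_ne_finset_zero (s := {e i}) fun m' hm' => ?_
        rw [if_neg (by simpa using hm')]
      refine (hs2.add h1).congr fun m' => ?_
      split_ifs <;> simp
    · refine (hs2.tsum_le_tsum hs1 hsum).trans ?_
      rw [tsum_mul_left, (hAs i ρ hρ hρle).tsum_add (hdeg.mul_left ε), tsum_mul_left,
        mul_comm (1 / 2 : ℝ)]
      refine mul_le_mul_of_nonneg_left ?_ (hwt _).le
      have := hρA i
      linarith

/-- MODULE g3c -/
theorem formal_of_summable {lam : Fin d → ℝ} (hw : Wt lam) {ρ : ℝ} {om : ℕ → ℝ} (h0 : 0 < ρ)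
    (h1 : ρ < 1) (ho : ∀ l, 0 < om l) (g : Ser d)
    (hg : Summable fun m => ‖coeff m g‖ * wt lam ρ om m) : IsFormal g := by
  have hL : 0 ≤ ∑ i, lam i := Finset.sum_nonneg fun i _ => (hw.pos i).le
  have hlv : ∀ m : Ex d, lv lam m ≤ (∑ i, lam i) * (m.degree : ℝ) := by
    intro m
    rw [lv, Finset.sum_mul]
    refine Finset.sum_le_sum fun i _ => mul_le_mul_of_nonneg_left ?_ (hw.pos i).le
    have h2 : m (some i) ≤ m.degree := by
      rw [Finsupp.degree_eq_sum]
      exact Finset.single_le_sum (f := fun i => m i) (fun _ _ => Nat.zero_le _)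
        (Finset.mem_univ (some i))
    exact_mod_cast h2
  refine ⟨ρ ^ (-(∑ i, lam i)), Real.rpow_pos_of_pos h0 _, fun j =>
    ⟨(∑' m, ‖coeff m g‖ * wt lam ρ om m) / om j, fun m hm => ?_⟩⟩
  have hwt : ∀ m, 0 < wt lam ρ om m := fun m => mul_pos (Real.rpow_pos_of_pos h0 _) (ho _)
  have h2 : ‖coeff m g‖ * wt lam ρ om m ≤ ∑' m, ‖coeff m g‖ * wt lam ρ om m :=
    hg.le_tsum m fun m _ => mul_nonneg (norm_nonneg _) (hwt m).le
  have h3 : ‖coeff m g‖ ≤ (∑' m, ‖coeff m g‖ * wt lam ρ om m) / om j * ρ ^ (-lv lam m) := by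
    have h4 : ‖coeff m g‖ = ‖coeff m g‖ * wt lam ρ om m / om j * ρ ^ (-lv lam m) := by
      rw [wt, hm, Real.rpow_neg h0.le]
      have h5 := (Real.rpow_pos_of_pos h0 (lv lam m)).ne'
      have h6 := (ho j).ne'
      field_simp
    rw [h4]
    exact mul_le_mul_of_nonneg_right (div_le_div_of_nonneg_right h2 (ho j).le)
      (Real.rpow_pos_of_pos h0 _).le
  refine h3.trans (mul_le_mul_of_nonneg_left ?_
    (div_nonneg (tsum_nonneg fun m => mul_nonneg (norm_nonneg _) (hwt m).le) (ho j).le))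
  rw [← Real.rpow_natCast, ← Real.rpow_mul h0.le]
  refine Real.rpow_le_rpow_of_exponent_ge h0 h1.le ?_
  have := hlv m
  linarith

/-! ## g4: the formal division -/

/-- the first `i` with `e_i ≤ m` -/
noncomputable def cls {k : ℕ} (e : Fin k → Ex d) (m : Ex d) : Option (Fin k) :=
  open Classical in
  if h : ∃ i, e i ≤ m then some (Fin.find (fun i => e i ≤ m) h) else none

/-- the quotient of the part of `g` which is divided by the leading monomial of `f_i` -/
noncomputable def quo {k : ℕ} (e : Fin k → Ex d) (i : Fin k) (g : Ser d) : Ser d :=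
  fun m => if cls e (m + e i) = some i then coeff (m + e i) g else 0

/-- the part of `g` which is not divisible by any leading monomial -/
noncomputable def rem {k : ℕ} (e : Fin k → Ex d) (g : Ser d) : Ser d :=
  fun m => if cls e m = none then coeff m g else 0

private lemma g4_cls_none {k : ℕ} {e : Fin k → Ex d} {m : Ex d} (h : cls e m = none)
    (i : Fin k) : ¬ e i ≤ m := by
  intro hi
  unfold cls at h
  rw [dif_pos ⟨i, hi⟩] at h
  exact absurd h (by simp)

private lemma g4_cls_some {k : ℕ} {e : Fin k → Ex d} {m : Ex d} {j : Fin k}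
    (h : cls e m = some j) : e j ≤ m := by
  classical
  unfold cls at h
  by_cases h1 : ∃ i, e i ≤ m
  · rw [dif_pos h1] at h
    have h2 := Fin.find_spec (p := fun i => e i ≤ m) h1
    rw [Option.some.injEq] at h
    rw [← h]
    convert h2
  · rw [dif_neg h1] at h
    exact absurd h (by simp)

private lemma g4_quo {k : ℕ} (e : Fin k → Ex d) (g : Ser d) (i : Fin k) (m : Ex d) :
    coeff m (quo e i g * monomial (e i) 1) = if cls e m = some i then coeff m g else 0 := by
  classical
  rw [coeff_mul_monomial]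
  by_cases h : e i ≤ m
  · rw [if_pos h, mul_one]
    change (if cls e (m - e i + e i) = some i then coeff (m - e i + e i) g else 0) = _
    rw [tsub_add_cancel_of_le h]
  · rw [if_neg h, if_neg (fun h1 => h (g4_cls_some h1))]

/-- MODULE g4 -/
lemma split {k : ℕ} (e : Fin k → Ex d) (g : Ser d) :
    g = rem e g + ∑ i, quo e i g * monomial (e i) 1 := by
  ext m
  rw [map_add, map_sum]
  simp_rw [g4_quo]
  change _ = (if cls e m = none then coeff m g else 0) + _
  cases hc : cls e m with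
  | none => simp
  | some j => simp

lemma rem_zero {k : ℕ} (e : Fin k → Ex d) (g : Ser d) (i : Fin k) (m : Ex d) (h : e i ≤ m) :
    coeff m (rem e g) = 0 := by
  change (if cls e m = none then coeff m g else 0) = 0
  rw [if_neg]
  intro h1
  exact g4_cls_none h1 i h

/-- the error operator -/
noncomputable def err {k : ℕ} (e : Fin k → Ex d) (f : Fin k → Ser d) (g : Ser d) : Ser d :=
  ∑ i, quo e i g * (monomial (e i) 1 - f i)

private lemma g5_conv (G : Ex d × Ex d → ℝ) (hs : Summable G) :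
    (Summable fun n => ∑ p ∈ antidiagonal n, G p) ∧
      ∑' n, ∑ p ∈ antidiagonal n, G p = ∑' p, G p := by
  have h1 : Summable (G ∘ (Finset.HasAntidiagonal.sigmaAntidiagonalEquivProd (A := Ex d))) :=
    (Equiv.summable_iff _).mpr hs
  have h2 : ∀ n : Ex d, ∑' c : antidiagonal n,
      (G ∘ (Finset.HasAntidiagonal.sigmaAntidiagonalEquivProd (A := Ex d))) ⟨n, c⟩ =
        ∑ p ∈ antidiagonal n, G p := fun n => by
    rw [tsum_fintype]
    exact Finset.sum_coe_sort (antidiagonal n) G
  constructor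
  · have := h1.sigma
    simpa only [h2] using this
  · have h3 := h1.tsum_sigma
    simp only [h2] at h3
    rw [← h3]
    exact Equiv.tsum_eq _ G

private lemma g5_wpos {lam : Fin d → ℝ} {ρ : ℝ} {om : ℕ → ℝ} (h0 : 0 < ρ)
    (ho : ∀ l, 0 < om l) (m : Ex d) : 0 < wt lam ρ om m :=
  mul_pos (Real.rpow_pos_of_pos h0 _) (ho _)

private lemma g5_sum {k : ℕ} {e : Fin k → Ex d} {n : Ex d} (x : ℝ) (hx : 0 ≤ x) :
    ∑ j, (if cls e n = some j then x else 0) ≤ x := by
  rcases h : cls e n with _ | j0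
  · simpa using hx
  · simp [Finset.sum_ite_eq]

/-- MODULE g5. `∑_m |(H g)_m| w(m) ≤ ∑_i ∑_(m, m') |q_i(g)_m| |f_(i,m')| w(m + m')`, with `m' ≠ e_i`,
`≤ 1/2 ∑_i ∑_m |q_i(g)_m| w(m + e_i) ≤ 1/2 ∑_m |g_m| w(m)`. -/
theorem err_le {lam : Fin d → ℝ} {k : ℕ} (f : Fin k → Ser d) (e : Fin k → Ex d)
    (he : ∀ i, Lead lam (f i) (e i)) {ρ : ℝ} {om : ℕ → ℝ} (h0 : 0 < ρ) (ho : ∀ l, 0 < om l)
    (h : ∀ i (m : Ex d), (Summable fun m' => ‖coeff m' (f i)‖ * wt lam ρ om (m + m')) ∧
        ∑' m', (if m' = e i then 0 else ‖coeff m' (f i)‖ * wt lam ρ om (m + m')) ≤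
          1 / 2 * wt lam ρ om (m + e i)) (g : Ser d)
    (hg : Summable fun m => ‖coeff m g‖ * wt lam ρ om m) :
    (Summable fun m => ‖coeff m (err e f g)‖ * wt lam ρ om m) ∧
      ∑' m, ‖coeff m (err e f g)‖ * wt lam ρ om m ≤
        1 / 2 * ∑' m, ‖coeff m g‖ * wt lam ρ om m := by
  classical
  set w : Ex d → ℝ := wt lam ρ om with hwdef
  have hw0 : ∀ m, 0 < w m := g5_wpos h0 ho
  have hb : ∀ i b, ‖coeff b (monomial (e i) (1 : ℂ) - f i)‖ =
      if b = e i then 0 else ‖coeff b (f i)‖ := fun i b => by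
    rw [map_sub, coeff_monomial]
    split_ifs with h1
    · rw [h1, (he i).one, sub_self, norm_zero]
    · rw [zero_sub, norm_neg]
  set Q : Fin k → Ex d → ℝ := fun i m => ‖coeff m (quo e i g)‖ with hQ
  set P : Fin k → Ex d → ℝ := fun i n => if cls e n = some i then ‖coeff n g‖ * w n else 0
    with hP
  have hP0 : ∀ i n, 0 ≤ P i n := fun i n => by
    simp only [hP]; split_ifs
    · exact mul_nonneg (norm_nonneg _) (hw0 _).le
    · exact le_rfl
  have hPle : ∀ i n, P i n ≤ ‖coeff n g‖ * w n := fun i n => by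
    simp only [hP]; split_ifs
    · exact le_rfl
    · exact mul_nonneg (norm_nonneg _) (hw0 _).le
  have hPs : ∀ i, Summable (P i) := fun i => Summable.of_nonneg_of_le (hP0 i) (hPle i) hg
  have hQP : ∀ i m, Q i m * w (m + e i) = P i (m + e i) := fun i m => by
    simp only [hQ, hP]
    have e1 : coeff m (quo e i g) = if cls e (m + e i) = some i then coeff (m + e i) g else 0 :=
      rfl
    rw [e1]
    split_ifs
    · rfl
    · rw [norm_zero, zero_mul]
  have hinj : ∀ i, Function.Injective fun m : Ex d => m + e i := fun i a b hab =>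
    add_right_cancel hab
  have hQs : ∀ i, Summable fun m => Q i m * w (m + e i) := fun i => by
    simp only [hQP]
    exact (hPs i).comp_injective (hinj i)
  have hQt : ∀ i, ∑' m, Q i m * w (m + e i) ≤ ∑' n, P i n := fun i => by
    simp only [hQP]
    exact tsum_comp_le_tsum_of_inj (hPs i) (hP0 i) (hinj i)
  have hPt : ∑ i, ∑' n, P i n ≤ ∑' n, ‖coeff n g‖ * w n := by
    rw [← Summable.tsum_finsetSum (fun i _ => hPs i)]
    refine Summable.tsum_le_tsum (fun n => ?_) (summable_sum fun i _ => hPs i) hg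
    exact g5_sum _ (mul_nonneg (norm_nonneg _) (hw0 _).le)
  -- the double series
  set G : Fin k → Ex d × Ex d → ℝ := fun i p =>
    Q i p.1 * (if p.2 = e i then 0 else ‖coeff p.2 (f i)‖ * w (p.1 + p.2)) with hG
  have hG0 : ∀ i p, 0 ≤ G i p := fun i p => by
    refine mul_nonneg (norm_nonneg _) ?_
    split_ifs
    · exact le_rfl
    · exact mul_nonneg (norm_nonneg _) (hw0 _).le
  have hfib : ∀ i m, Summable fun m' =>
      (if m' = e i then 0 else ‖coeff m' (f i)‖ * w (m + m')) := fun i m => by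
    refine Summable.of_nonneg_of_le (fun m' => ?_) (fun m' => ?_) (h i m).1
    · split_ifs
      · exact le_rfl
      · exact mul_nonneg (norm_nonneg _) (hw0 _).le
    · split_ifs
      · exact mul_nonneg (norm_nonneg _) (hw0 _).le
      · exact le_rfl
  have hGt1 : ∀ i m, ∑' m', G i (m, m') ≤ 1 / 2 * (Q i m * w (m + e i)) := fun i m => by
    simp only [hG]
    rw [tsum_mul_left]
    calc Q i m * _ ≤ Q i m * (1 / 2 * w (m + e i)) :=
          mul_le_mul_of_nonneg_left (h i m).2 (norm_nonneg _)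
      _ = _ := by ring
  have hGt0 : ∀ i m, 0 ≤ ∑' m', G i (m, m') := fun i m => tsum_nonneg fun m' => hG0 i _
  have hGs1 : ∀ i, Summable fun m => ∑' m', G i (m, m') := fun i =>
    Summable.of_nonneg_of_le (hGt0 i) (hGt1 i) ((hQs i).mul_left _)
  have hGs : ∀ i, Summable (G i) := fun i =>
    (summable_prod_of_nonneg (hG0 i)).mpr
      ⟨fun m => by simpa only [hG] using (hfib i m).mul_left (Q i m), hGs1 i⟩
  have hGt : ∀ i, ∑' p, G i p ≤ 1 / 2 * ∑' m, Q i m * w (m + e i) := fun i => by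
    rw [(hGs i).tsum_prod, ← tsum_mul_left]
    exact Summable.tsum_le_tsum (hGt1 i) (hGs1 i) ((hQs i).mul_left _)
  -- the convolution
  have hc : ∀ n, ‖coeff n (err e f g)‖ * w n ≤ ∑ i, ∑ p ∈ antidiagonal n, G i p := fun n => by
    have e1 : coeff n (err e f g) =
        ∑ i, ∑ p ∈ antidiagonal n, coeff p.1 (quo e i g) *
          coeff p.2 (monomial (e i) (1 : ℂ) - f i) := by
      unfold err
      rw [map_sum]
      exact Finset.sum_congr rfl fun i _ => coeff_mul _ _ _
    rw [e1]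
    calc _ ≤ (∑ i, ∑ p ∈ antidiagonal n, ‖coeff p.1 (quo e i g) *
          coeff p.2 (monomial (e i) (1 : ℂ) - f i)‖) * w n := by
          refine mul_le_mul_of_nonneg_right ((norm_sum_le _ _).trans ?_) (hw0 _).le
          exact Finset.sum_le_sum fun i _ => norm_sum_le _ _
      _ = _ := by
          rw [Finset.sum_mul]
          refine Finset.sum_congr rfl fun i _ => ?_
          rw [Finset.sum_mul]
          refine Finset.sum_congr rfl fun p hp => ?_
          rw [mem_antidiagonal] at hp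
          simp only [hG, hQ]
          rw [norm_mul, hb, hp]
          split_ifs
          · ring
          · ring
  have hcs : Summable fun n => ∑ i, ∑ p ∈ antidiagonal n, G i p :=
    summable_sum fun i _ => (g5_conv (G i) (hGs i)).1
  have hes : Summable fun m => ‖coeff m (err e f g)‖ * w m :=
    Summable.of_nonneg_of_le (fun n => mul_nonneg (norm_nonneg _) (hw0 _).le) hc hcs
  refine ⟨hes, ?_⟩
  calc ∑' m, ‖coeff m (err e f g)‖ * w m ≤ ∑' n, ∑ i, ∑ p ∈ antidiagonal n, G i p :=
        Summable.tsum_le_tsum hc hes hcs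
    _ = ∑ i, ∑' n, ∑ p ∈ antidiagonal n, G i p :=
        Summable.tsum_finsetSum fun i _ => (g5_conv (G i) (hGs i)).1
    _ = ∑ i, ∑' p, G i p := Finset.sum_congr rfl fun i _ => (g5_conv (G i) (hGs i)).2
    _ ≤ ∑ i, 1 / 2 * ∑' n, P i n := Finset.sum_le_sum fun i _ =>
        (hGt i).trans (mul_le_mul_of_nonneg_left (hQt i) (by norm_num))
    _ = 1 / 2 * ∑ i, ∑' n, P i n := by rw [Finset.mul_sum]
    _ ≤ 1 / 2 * ∑' m, ‖coeff m g‖ * w m := mul_le_mul_of_nonneg_left hPt (by norm_num)

private lemma g6_wpos {lam : Fin d → ℝ} {ρ : ℝ} {om : ℕ → ℝ} (h0 : 0 < ρ)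
    (ho : ∀ l, 0 < om l) (m : Ex d) : 0 < wt lam ρ om m :=
  mul_pos (Real.rpow_pos_of_pos h0 _) (ho _)

private lemma g6_coeff {k : ℕ} (f : Fin k → Ser d) (e : Fin k → Ex d) (G : ℕ → Ser d)
    (u : Ser d) (hu : ∀ m, HasSum (fun n => coeff m (G n)) (coeff m u)) (m : Ex d) :
    HasSum (fun n => coeff m (err e f (G n))) (coeff m (err e f u)) := by
  have e1 : ∀ v : Ser d, coeff m (err e f v) =
      ∑ i, ∑ p ∈ antidiagonal m, coeff p.1 (quo e i v) *
        coeff p.2 (monomial (e i) (1 : ℂ) - f i) := fun v => by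
    unfold err
    rw [map_sum]
    exact Finset.sum_congr rfl fun i _ => coeff_mul _ _ _
  have e2 : ∀ (i : Fin k) (a : Ex d) (v : Ser d), coeff a (quo e i v) =
      if cls e (a + e i) = some i then coeff (a + e i) v else 0 := fun _ _ _ => rfl
  simp only [e1]
  refine hasSum_sum fun i _ => hasSum_sum fun p _ => HasSum.mul_right _ ?_
  simp only [e2]
  split_ifs
  · exact hu _
  · exact hasSum_zero

/-- MODULE g6. `u = ∑_n H^n g`, coefficientwise; `(H u)_m` is a finite sum of coefficients. -/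
theorem exists_fix {lam : Fin d → ℝ} {k : ℕ} (f : Fin k → Ser d) (e : Fin k → Ex d)
    (he : ∀ i, Lead lam (f i) (e i)) {ρ : ℝ} {om : ℕ → ℝ} (h0 : 0 < ρ) (ho : ∀ l, 0 < om l)
    (h : ∀ i (m : Ex d), (Summable fun m' => ‖coeff m' (f i)‖ * wt lam ρ om (m + m')) ∧
        ∑' m', (if m' = e i then 0 else ‖coeff m' (f i)‖ * wt lam ρ om (m + m')) ≤
          1 / 2 * wt lam ρ om (m + e i)) (g : Ser d)
    (hg : Summable fun m => ‖coeff m g‖ * wt lam ρ om m) :
    ∃ u : Ser d, (Summable fun m => ‖coeff m u‖ * wt lam ρ om m) ∧ u = g + err e f u := by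
  have hw0 : ∀ m, 0 < wt lam ρ om m := g6_wpos h0 ho
  set G : ℕ → Ser d := fun n => (err e f)^[n] g with hG
  have hG0 : G 0 = g := rfl
  have hG1 : ∀ n, G (n + 1) = err e f (G n) := fun n => Function.iterate_succ_apply' _ _ _
  set S : ℝ := ∑' m, ‖coeff m g‖ * wt lam ρ om m with hS
  have hT : ∀ n, (Summable fun m => ‖coeff m (G n)‖ * wt lam ρ om m) ∧
      ∑' m, ‖coeff m (G n)‖ * wt lam ρ om m ≤ (1 / 2) ^ n * S := fun n => by
    induction n with
    | zero => exact ⟨hg, by rw [pow_zero, one_mul, hG0]⟩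
    | succ n ih =>
      rw [hG1]
      have h1 := err_le f e he h0 ho h (G n) ih.1
      refine ⟨h1.1, h1.2.trans ?_⟩
      rw [pow_succ']
      have := mul_le_mul_of_nonneg_left ih.2 (show (0 : ℝ) ≤ 1 / 2 by norm_num)
      linarith
  -- the double series
  have hnn : 0 ≤ fun p : ℕ × Ex d => ‖coeff p.2 (G p.1)‖ * wt lam ρ om p.2 := fun p =>
    mul_nonneg (norm_nonneg _) (hw0 _).le
  have hD : Summable fun p : ℕ × Ex d => ‖coeff p.2 (G p.1)‖ * wt lam ρ om p.2 := by
    refine (summable_prod_of_nonneg hnn).mpr ⟨fun n => (hT n).1, ?_⟩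
    refine Summable.of_nonneg_of_le (fun n => tsum_nonneg fun m => hnn (n, m))
      (fun n => (hT n).2) ?_
    exact (summable_geometric_of_lt_one (by norm_num) (by norm_num)).mul_right _
  have hD' : Summable fun p : Ex d × ℕ => ‖coeff p.1 (G p.2)‖ * wt lam ρ om p.1 :=
    (Equiv.prodComm (Ex d) ℕ).summable_iff.mpr hD
  have hnn' : 0 ≤ fun p : Ex d × ℕ => ‖coeff p.1 (G p.2)‖ * wt lam ρ om p.1 := fun p =>
    mul_nonneg (norm_nonneg _) (hw0 _).le
  obtain ⟨hf1, hf2⟩ := (summable_prod_of_nonneg hnn').mp hD'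
  have hn : ∀ m, Summable fun n => ‖coeff m (G n)‖ := fun m => by
    have h1 := (hf1 m).mul_right (wt lam ρ om m)⁻¹
    refine h1.congr fun n => ?_
    simp only
    rw [mul_assoc, mul_inv_cancel₀ (hw0 m).ne', mul_one]
  let u : Ser d := fun m => ∑' n, coeff m (G n)
  have hu : ∀ m, HasSum (fun n => coeff m (G n)) (coeff m u) := fun m =>
    (hn m).of_norm.hasSum
  refine ⟨u, ?_, ?_⟩
  · refine Summable.of_nonneg_of_le (fun m => mul_nonneg (norm_nonneg _) (hw0 _).le)
      (fun m => ?_) hf2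
    simp only
    rw [tsum_mul_right]
    exact mul_le_mul_of_nonneg_right (norm_tsum_le_tsum_norm (hn m)) (hw0 _).le
  · ext m
    have h1 := g6_coeff f e G u hu m
    simp only [← hG1] at h1
    have h2 : HasSum (fun n => coeff m (G n)) (coeff m (err e f u) + coeff m (G 0)) := by
      have := (hasSum_nat_add_iff (f := fun n => coeff m (G n)) 1).mp h1
      simpa using this
    rw [(hu m).unique h2, map_add, hG0, add_comm]

/-- private helper of g7 -/
private lemma g7_quo_formal {k : ℕ} (e : Fin k → Ex d) (i : Fin k) {u : Ser d}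
    (hu : IsFormal u) : IsFormal (quo e i u) := by
  obtain ⟨R, hR, h⟩ := hu
  refine ⟨max R 1, by positivity, fun j => ?_⟩
  obtain ⟨C, hC⟩ := h (j + e i none)
  refine ⟨|C| * max R 1 ^ (e i).degree, fun m hm => ?_⟩
  have h1 : coeff m (quo e i u) = if cls e (m + e i) = some i then coeff (m + e i) u else 0 := rfl
  rw [h1]
  have hM : (0 : ℝ) ≤ |C| * max R 1 ^ (e i).degree * max R 1 ^ m.degree := by positivity
  split_ifs
  · refine (hC (m + e i) (by rw [Finsupp.add_apply, hm])).trans ?_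
    rw [mul_assoc, ← pow_add, add_comm (e i).degree, ← map_add]
    calc C * R ^ (m + e i).degree ≤ |C| * R ^ (m + e i).degree :=
          mul_le_mul_of_nonneg_right (le_abs_self C) (by positivity)
      _ ≤ |C| * max R 1 ^ (m + e i).degree :=
          mul_le_mul_of_nonneg_left (pow_le_pow_left₀ hR.le (le_max_left _ _) _) (abs_nonneg C)
  · rw [norm_zero]; exact hM

/-- private helper of g7 -/
private lemma g7_rem_formal {k : ℕ} (e : Fin k → Ex d) {u : Ser d} (hu : IsFormal u) :
    IsFormal (rem e u) := by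
  obtain ⟨R, hR, h⟩ := hu
  refine ⟨R, hR, fun j => ?_⟩
  obtain ⟨C, hC⟩ := h j
  refine ⟨|C|, fun m hm => ?_⟩
  have h1 : coeff m (rem e u) = if cls e m = none then coeff m u else 0 := rfl
  rw [h1]
  split_ifs
  · exact (hC m hm).trans (mul_le_mul_of_nonneg_right (le_abs_self C) (by positivity))
  · rw [norm_zero]; positivity

/-- MODULE g7: the division theorem -/
theorem division {lam : Fin d → ℝ} (hw : Wt lam) {k : ℕ} (f : Fin k → Ser d)
    (hf : ∀ i, IsFormal (f i)) (e : Fin k → Ex d) (he : ∀ i, Lead lam (f i) (e i)) (g : Ser d)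
    (hg : IsFormal g) :
    ∃ (q : Fin k → Ser d) (r : Ser d), (∀ i, IsFormal (q i)) ∧ IsFormal r ∧
      g = ∑ i, q i * f i + r ∧ ∀ i m, e i ≤ m → coeff m r = 0 := by
  obtain ⟨ρ, om, h0, h1, ho, hgs, hfs⟩ := exists_weights hw f hf e he g hg
  obtain ⟨u, hus, hu⟩ := exists_fix f e he h0 ho hfs g hgs
  have huf : IsFormal u := formal_of_summable hw h0 h1 ho u hus
  refine ⟨fun i => quo e i u, rem e u, fun i => g7_quo_formal e i huf, g7_rem_formal e huf, ?_,
    fun i m h => rem_zero e u i m h⟩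
  have hs := split e u
  have h2 : err e f u = ∑ i, quo e i u * monomial (e i) 1 - ∑ i, quo e i u * f i := by
    rw [err, ← Finset.sum_sub_distrib]
    exact Finset.sum_congr rfl fun i _ => by rw [mul_sub]
  have h3 : g = u - err e f u := eq_sub_of_add_eq hu.symm
  rw [h3, h2]
  nth_rewrite 1 [hs]
  abel

-- row g8 of Grd.lean (helper75): paste in place of the stub `noetherian`
private lemma g8_dickson (S : Set (Ex d)) :
    ∃ F : Set (Ex d), F.Finite ∧ F ⊆ S ∧ ∀ e ∈ S, ∃ e' ∈ F, e' ≤ e := by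
  refine ⟨{e | Minimal (· ∈ S) e}, ?_, fun e he => he.prop, fun e he => ?_⟩
  · exact WellQuasiOrderedLE.finite_of_isAntichain (setOfPred_minimal_antichain _)
  · obtain ⟨b, hb, hm⟩ := exists_minimal_le_of_wellFoundedLT (· ∈ S) e he
    exact ⟨b, hm, hb⟩

instance noetherian (d : ℕ) : IsNoetherianRing (formal d).alg := by
  classical
  obtain ⟨lam, hw⟩ := exists_wt d
  rw [isNoetherianRing_iff_ideal_fg]
  intro I
  obtain ⟨F, hF, hFS, hFe⟩ :=
    g8_dickson {e : Ex d | ∃ f ∈ I, Lead lam (f : Ser d) e}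
  choose fn hfn hlead using fun e : F => hFS e.2
  haveI : Finite F := hF
  obtain ⟨k, ⟨eq⟩⟩ := Finite.exists_equiv_fin F
  refine ⟨Finset.univ.image (fun i : Fin k => fn (eq.symm i)), le_antisymm ?_ ?_⟩
  · rw [Ideal.span_le]
    intro g hg
    rw [Finset.coe_image, Set.mem_image] at hg
    obtain ⟨i, -, rfl⟩ := hg
    exact hfn _
  · intro g hg
    obtain ⟨q, r, hq, hr, hgr, hr0⟩ := division hw (fun i : Fin k => (fn (eq.symm i) : Ser d))
      (fun i => (fn (eq.symm i)).2) (fun i => ((eq.symm i : F) : Ex d)) (fun i => hlead _)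
      (g : Ser d) g.2
    set q' : Fin k → (formal d).alg := fun i => ⟨q i, hq i⟩ with hq'
    set r' : (formal d).alg := ⟨r, hr⟩ with hr'
    have hg' : g = ∑ i, q' i * fn (eq.symm i) + r' := by
      apply Subtype.ext
      rw [hgr]
      simp [hq', hr']
    have hs : ∑ i, q' i * fn (eq.symm i) ∈ Ideal.span
        ((Finset.univ.image (fun i : Fin k => fn (eq.symm i)) : Finset (formal d).alg) :
          Set (formal d).alg) := by
      refine Ideal.sum_mem _ fun i _ => Ideal.mul_mem_left _ _ (Ideal.subset_span ?_)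
      rw [Finset.coe_image]
      exact ⟨i, Finset.mem_coe.2 (Finset.mem_univ i), rfl⟩
    have hsI : ∑ i, q' i * fn (eq.symm i) ∈ I :=
      Ideal.sum_mem _ fun i _ => Ideal.mul_mem_left _ _ (hfn _)
    have hrI : r' ∈ I := by
      have : r' = g - ∑ i, q' i * fn (eq.symm i) := by rw [hg']; ring
      rw [this]
      exact Ideal.sub_mem _ hg hsI
    have hr00 : r = 0 := by
      by_contra hne
      have hS : {m : Ex d | coeff m r ≠ 0}.Nonempty := by
        by_contra hem
        rw [Set.not_nonempty_iff_eq_empty, Set.eq_empty_iff_forall_notMem] at hem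
        apply hne
        ext m
        simpa using hem m
      obtain ⟨e, he, hmin⟩ := hw.exists_first _ hS
      have hc : coeff e r ≠ 0 := he
      set c : (formal d).alg := algebraMap ℂ _ (coeff e r)⁻¹ with hc'
      have hval : ((c * r' : (formal d).alg) : Ser d) = (coeff e r)⁻¹ • r := by
        rw [hc', ← Algebra.smul_def]
        rfl
      have hl : Lead lam ((c * r' : (formal d).alg) : Ser d) e := by
        rw [hval]
        refine ⟨by simp [hc], fun m hm hme => hmin m ?_ hme⟩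
        intro h0
        apply hm
        simp [h0]
      obtain ⟨e', he', hle⟩ := hFe e ⟨c * r', Ideal.mul_mem_left _ _ hrI, hl⟩
      exact hc (hr0 (eq ⟨e', he'⟩) e (by simpa using hle))
    have : r' = 0 := Subtype.ext hr00
    rw [hg', this, add_zero]
    exact hs

end Pool.Agent.Stf
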