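import Pool.Agent.Stf.Alg

import Pool.Agent.Stf.Grd

import Pool.Agent.Fbc.NFc

/-!
# The ring of formal symbols is a regular local ring (block D of P11)
-/

set_option autoImplicit false

namespace Pool.Agent.Stf

open Pool.Fml (Ser SymRing formal IsFormal)

open Finset.HasAntidiagonal (antidiagonal mem_antidiagonal)

open MvPowerSeries

variable {d : ℕ}

/-- MODULE r1 -/
instance domain (d : ℕ) : IsDomain (formal d).alg := by
  have h : IsDomain (Ser d) := NoZeroDivisors.to_isDomain _
  exact Subalgebra.isDomain _

/-- MODULE r1 (`Pool.Agent.Fbc.isFormal_inv`) -/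
lemma isUnit_iff (f : (formal d).alg) : IsUnit f ↔ coeff 0 (f : Ser d) ≠ 0 := by
  constructor
  · intro h h0
    obtain ⟨g, hg⟩ := h.exists_right_inv
    have h1 : (f : Ser d) * (g : Ser d) = 1 := congrArg Subtype.val hg
    have h2 : constantCoeff (f : Ser d) = 0 := h0
    have h3 := congrArg (constantCoeff (σ := Option (Fin d)) (R := ℂ)) h1
    rw [map_mul, h2, zero_mul, map_one] at h3
    exact zero_ne_one h3
  · intro h
    have h1 : (f : Ser d) * (f : Ser d)⁻¹ = 1 := MvPowerSeries.mul_inv_cancel _ h
    exact IsUnit.of_mul_eq_one ⟨(f : Ser d)⁻¹, Pool.Agent.Fbc.isFormal_inv f.2 h1⟩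
      (Subtype.ext h1)

/-- MODULE r1 -/
instance isLocal (d : ℕ) : IsLocalRing (formal d).alg := by
  refine IsLocalRing.of_nonunits_add fun a b ha hb => ?_
  rw [mem_nonunits_iff, isUnit_iff, not_not] at *
  have h1 : coeff 0 ((a + b : (formal d).alg) : Ser d) =
    coeff 0 (a : Ser d) + coeff 0 (b : Ser d) := map_add _ _ _
  rw [h1, ha, hb, add_zero]

/-! ## r2: the first variable equal to zero -/

/-- the embedding of the exponents without the variable `x_0` -/
noncomputable def up (m : Ex d) : Ex (d + 1) := m.mapDomain (Option.map Fin.succ)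

private theorem r2_inj : Function.Injective (Option.map (Fin.succ : Fin d → Fin (d + 1))) :=
  Option.map_injective (Fin.succ_injective d)

private theorem r2_range {i : Option (Fin (d + 1))} (h : i ≠ some 0) :
    i ∈ Set.range (Option.map (Fin.succ : Fin d → Fin (d + 1))) := by
  rcases i with _ | i
  · exact ⟨none, rfl⟩
  · have hi : i ≠ 0 := fun h' => h (by rw [h'])
    obtain ⟨j, rfl⟩ := Fin.exists_succ_eq.2 hi
    exact ⟨some j, rfl⟩

private theorem r2_notin : (some 0 : Option (Fin (d + 1))) ∉
    Set.range (Option.map (Fin.succ : Fin d → Fin (d + 1))) := by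
  rintro ⟨_ | i, hi⟩
  · simp at hi
  · simp at hi

private theorem r2_up_zero (m : Ex d) : up m (some 0) = 0 :=
  Finsupp.mapDomain_of_notMem_range m _ r2_notin

private theorem r2_up_apply (m : Ex d) (i : Option (Fin d)) :
    up m (Option.map Fin.succ i) = m i := Finsupp.mapDomain_apply r2_inj m i

private theorem r2_up_none (m : Ex d) : up m none = m none := r2_up_apply m none

private theorem r2_up_inj : Function.Injective (up (d := d)) :=
  Finsupp.mapDomain_injective r2_inj

private theorem r2_up_deg (m : Ex d) : (up m).degree = m.degree := Finsupp.degree_mapDomain _ m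

private theorem r2_up_add (m m' : Ex d) : up (m + m') = up m + up m' :=
  Finsupp.mapDomain_add

private theorem r2_up_bot : up (0 : Ex d) = 0 := Finsupp.mapDomain_zero

private noncomputable def r2_down (m : Ex (d + 1)) : Ex d :=
  m.comapDomain (Option.map Fin.succ) r2_inj.injOn

private theorem r2_up_down (m : Ex (d + 1)) (h : m (some 0) = 0) : up (r2_down m) = m := by
  refine Finsupp.mapDomain_comapDomain _ r2_inj m fun i hi => r2_range ?_
  rintro rfl
  exact (Finsupp.mem_support_iff.1 hi) h

private theorem r2_down_up (m : Ex d) : r2_down (up m) = m :=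
  r2_up_inj (r2_up_down _ (r2_up_zero m))

private theorem r2_mul (f g : Ser (d + 1)) (m : Ex d) :
    coeff (up m) (f * g) = ∑ p ∈ antidiagonal m, coeff (up p.1) f * coeff (up p.2) g := by
  rw [coeff_mul]
  symm
  refine Finset.sum_bij (fun p _ => (up p.1, up p.2)) ?_ ?_ ?_ ?_
  · intro p hp
    rw [mem_antidiagonal] at hp ⊢
    rw [← hp, r2_up_add]
  · intro p _ q _ h
    rw [Prod.mk.injEq] at h
    exact Prod.ext (r2_up_inj h.1) (r2_up_inj h.2)
  · intro p hp
    rw [mem_antidiagonal] at hp
    have h0 : p.1 (some 0) + p.2 (some 0) = 0 := by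
      rw [← Finsupp.add_apply, hp, r2_up_zero]
    refine ⟨(r2_down p.1, r2_down p.2), ?_, ?_⟩
    · rw [mem_antidiagonal]
      apply r2_up_inj
      rw [r2_up_add, r2_up_down _ (by omega), r2_up_down _ (by omega), hp]
    · exact Prod.ext (r2_up_down _ (by omega)) (r2_up_down _ (by omega))
  · intro p _
    rfl

private theorem r2_coeff (f : Ser (d + 1)) (m : Ex d) :
    coeff m (fun m => coeff (up m) f : Ser d) = coeff (up m) f := rfl

/-- MODULE r2: `x_0 = 0`, as a map of power series -/
noncomputable def resS : Ser (d + 1) →+* Ser d where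
  toFun f := fun m => coeff (up m) f
  map_one' := by
    classical
    ext m
    rw [r2_coeff, coeff_one, coeff_one]
    by_cases h : m = 0
    · rw [if_pos h, h, r2_up_bot, if_pos rfl]
    · rw [if_neg h, if_neg]
      intro h'
      exact h (r2_up_inj (h'.trans r2_up_bot.symm))
  map_mul' f g := by
    ext m
    exact (r2_mul f g m).trans (coeff_mul (φ := (fun m => coeff (up m) f : Ser d))
      (ψ := (fun m => coeff (up m) g : Ser d)) (n := m)).symm
  map_zero' := by
    ext m
    rw [r2_coeff, map_zero, map_zero]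
  map_add' f g := by
    ext m
    exact map_add (coeff (up m)) f g

private theorem r2_res_coeff (f : Ser (d + 1)) (m : Ex d) :
    coeff m (resS f) = coeff (up m) f := rfl

/-- MODULE r2 -/
noncomputable def res : (formal (d + 1)).alg →+* (formal d).alg where
  toFun f := ⟨resS (f : Ser (d + 1)), by
    obtain ⟨R, hR, hf⟩ := f.2
    refine ⟨R, hR, fun j => ?_⟩
    obtain ⟨C, hC⟩ := hf j
    refine ⟨C, fun m hm => ?_⟩
    rw [r2_res_coeff, ← r2_up_deg]
    exact hC _ (by rw [r2_up_none, hm])⟩
  map_one' := by
    apply Subtype.ext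
    exact map_one resS
  map_mul' f g := by
    apply Subtype.ext
    exact map_mul resS _ _
  map_zero' := by
    apply Subtype.ext
    exact map_zero resS
  map_add' f g := by
    apply Subtype.ext
    exact map_add resS _ _

/-- MODULE r2 -/
lemma res_surjective : Function.Surjective (res (d := d)) := by
  classical
  intro g
  obtain ⟨R, hR, hg⟩ := g.2
  obtain ⟨f, hf⟩ : ∃ f : Ser (d + 1), f = fun m => if m (some 0) = 0 then
      coeff (r2_down m) (g : Ser d) else 0 := ⟨_, rfl⟩
  have hfc : ∀ m, coeff m f = if m (some 0) = 0 then coeff (r2_down m) (g : Ser d) else 0 := by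
    intro m
    rw [hf]
    rfl
  have hfm : IsFormal f := by
    refine ⟨R, hR, fun j => ?_⟩
    obtain ⟨C, hC⟩ := hg j
    refine ⟨max C 0, fun m hm => ?_⟩
    rw [hfc]
    split_ifs with h
    · have h1 := hC (r2_down m) (by rw [← r2_up_none, r2_up_down m h, hm])
      rw [← r2_up_deg, r2_up_down m h] at h1
      exact h1.trans (mul_le_mul_of_nonneg_right (le_max_left _ _) (by positivity))
    · rw [norm_zero]
      positivity
  refine ⟨⟨f, hfm⟩, ?_⟩
  apply Subtype.ext
  change resS f = g
  ext m
  rw [r2_res_coeff, hfc, if_pos (r2_up_zero m), r2_down_up]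

/-- MODULE r2 -/
lemma ker_res : RingHom.ker (res (d := d)) = Ideal.span {(formal (d + 1)).var (some 0)} := by
  classical
  ext f
  rw [RingHom.mem_ker, Ideal.mem_span_singleton]
  constructor
  · intro h
    have h1 : resS (f : Ser (d + 1)) = 0 := congrArg Subtype.val h
    have h2 : ∀ m : Ex (d + 1), m (some 0) = 0 → coeff m (f : Ser (d + 1)) = 0 := by
      intro m hm
      rw [← r2_up_down m hm, ← r2_res_coeff, h1, map_zero]
    obtain ⟨g, hg⟩ := (X_dvd_iff (s := (some 0 : Option (Fin (d + 1))))).2 h2
    have h3 : ∀ m, coeff m g = coeff (m + Finsupp.single (some 0) 1) (f : Ser (d + 1)) := by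
      intro m
      rw [hg, X, add_comm m, coeff_add_monomial_mul, one_mul]
    have h4 : IsFormal g := by
      obtain ⟨R, hR, hf⟩ := f.2
      refine ⟨R, hR, fun j => ?_⟩
      obtain ⟨C, hC⟩ := hf j
      refine ⟨C * R, fun m hm => ?_⟩
      rw [h3]
      have h5 := hC (m + Finsupp.single (some 0) 1) (by
        rw [Finsupp.add_apply, Finsupp.single_eq_of_ne (by simp), add_zero, hm])
      rw [map_add, Finsupp.degree_single, pow_succ] at h5
      linarith
    exact ⟨⟨g, h4⟩, Subtype.ext hg⟩
  · rintro ⟨g, rfl⟩
    rw [map_mul]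
    have h1 : res ((formal (d + 1)).var (some 0)) = 0 := by
      apply Subtype.ext
      change resS (X (some 0)) = 0
      ext m
      rw [r2_res_coeff, coeff_X, if_neg, map_zero]
      intro h
      have h2 := r2_up_zero m
      rw [h, Finsupp.single_eq_same] at h2
      exact one_ne_zero h2
    rw [h1, zero_mul]

/-! ## r3 -/

/-- the constant term of a symbol in `s` -/
noncomputable def ev0 : (formal 0).alg →+* ℂ :=
  (MvPowerSeries.constantCoeff).comp (formal 0).alg.val.toRingHom

private lemma r3_ev0 (f : (formal 0).alg) : ev0 f = coeff 0 (f : Ser 0) := rfl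

private lemma r3_shift {d : ℕ} {f g : Ser d} (hf : IsFormal f) (i : Option (Fin d))
    (h : f = X i * g) : IsFormal g := by
  obtain ⟨R, hR, hf⟩ := hf
  have h1 : ∀ m, coeff m g = coeff (Finsupp.single i 1 + m) f := by
    intro m
    have := coeff_add_monomial_mul (Finsupp.single i 1) m g (1 : ℂ)
    rw [one_mul] at this
    rw [h]
    exact this.symm
  rcases hi : i with _ | i'
  all_goals
    refine ⟨R, hR, fun j => ?_⟩
    obtain ⟨C, hC⟩ := hf (j + if i = none then 1 else 0)
    refine ⟨C * R, fun m hm => ?_⟩
    rw [h1]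
    refine (hC _ ?_).trans (le_of_eq ?_)
    · rw [Finsupp.add_apply, hm, Finsupp.single_apply, add_comm]
    · rw [map_add, Finsupp.degree_single, pow_add, pow_one]
      ring

private lemma r3_var {d : ℕ} (i : Option (Fin d)) (a : (formal d).alg)
    (h : (formal d).var i * a = 0) : a = 0 := by
  rcases mul_eq_zero.1 h with h | h
  · have h1 : (X i : Ser d) = 0 := congrArg Subtype.val h
    have h2 := congrArg (coeff (Finsupp.single i 1)) h1
    rw [coeff_index_single_self_X, map_zero] at h2
    exact absurd h2 one_ne_zero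
  · exact h

private lemma r3_unit {d : ℕ} (i : Option (Fin d)) : ¬ IsUnit ((formal d).var i) := by
  rw [isUnit_iff, not_not]
  exact coeff_zero_X i

/-- MODULE r3 -/
lemma ker_ev0 : RingHom.ker ev0 = Ideal.span {(formal 0).var none} := by
  ext f
  rw [RingHom.mem_ker, Ideal.mem_span_singleton, r3_ev0]
  constructor
  · intro h
    have h1 : (X none : Ser 0) ∣ (f : Ser 0) := by
      rw [X_dvd_iff]
      intro m hm
      have h2 : m = 0 := by
        refine Finsupp.ext fun i => ?_
        rcases i with _ | i
        · exact hm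
        · exact i.elim0
      rw [h2]
      exact h
    obtain ⟨g, hg⟩ := h1
    exact ⟨⟨g, r3_shift f.2 none hg⟩, Subtype.ext hg⟩
  · rintro ⟨g, hg⟩
    rw [hg]
    exact coeff_zero_X_mul (g : Ser 0) none

/-- MODULE r3 (`ℂ` is a field, `ev0`, `res`) -/
theorem reg_formal (d : ℕ) : Reg (d + 1) (formal d).alg := by
  induction d with
  | zero =>
    refine ⟨isLocal 0, noetherian 0, ℂ, inferInstance, ev0, (formal 0).var none, ?_, ker_ev0,
      r3_unit none, r3_var none, Field.toIsField ℂ⟩
    intro c
    refine ⟨algebraMap ℂ _ c, ?_⟩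
    rw [r3_ev0]
    exact coeff_zero_C c
  | succ d ih =>
    exact ⟨isLocal (d + 1), noetherian (d + 1), (formal d).alg, inferInstance, res,
      (formal (d + 1)).var (some 0), res_surjective, ker_res, r3_unit _, r3_var _, ih⟩

end Pool.Agent.Stf
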